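import Pool.Agent.T9h20.TE.Spec
import Pool.Agent.T9h20.TD.Basic
import Pool.Agent.T9h95.TA.Kap

/-!
# Arbitrary expressions: from windows to the whole line
-/

set_option autoImplicit false

open MeasureTheory Set Filter Topology
open scoped ENNReal NNReal

namespace Pool.Agent.T9h20.TE

open Pool.Agent.T9h20.TA (mon fn PP kap measurable_kap)

section asm1

variable {k q t : ℕ}

theorem continuous_FF₂ (b d : Fin k → ℝ) (al : Fin k → Fin q → ℕ) (c a : Fin q → Fin t → ℝ) :
    Continuous fun p : (Fin q → Fin t → ℝ) × ℝ => FF b d al c a p.1 p.2 := by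
  unfold FF fn mon
  fun_prop

theorem continuous_FF (b d : Fin k → ℝ) (al : Fin k → Fin q → ℕ) (c a : Fin q → Fin t → ℝ)
    (y : ℝ) : Continuous fun v => FF b d al c a v y := by
  unfold FF fn mon
  fun_prop

theorem measurableSet_zero (b d : Fin k → ℝ) (al : Fin k → Fin q → ℕ)
    (c a : Fin q → Fin t → ℝ) : MeasurableSet {v | ∀ y, FF b d al c a v y = 0} := by
  have h : {v | ∀ y, FF b d al c a v y = 0} = ⋂ y, {v | FF b d al c a v y = 0} := by
    ext v
    simp
  rw [h]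
  exact (isClosed_iInter fun y =>
    isClosed_eq (continuous_FF b d al c a y) continuous_const).measurableSet

theorem measurable_cnt (b d : Fin k → ℝ) (al : Fin k → Fin q → ℕ)
    (c a : Fin q → Fin t → ℝ) (U : Set ℝ) (hU : IsOpen U) :
    Measurable fun v : Fin q → Fin t → ℝ =>
      (({y : ℝ | y ∈ U ∧ FF b d al c a v y = 0}.encard : ℕ∞) : ℝ≥0∞) := by
  have h := Pool.Agent.T9h48.TA.sMeas (Fin q → Fin t → ℝ)
    {p | FF b d al c a p.1 p.2 = 0} {p | p.2 ∈ U}
    (isClosed_eq (continuous_FF₂ b d al c a) continuous_const) (hU.preimage continuous_snd)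
  convert h using 5 with v
  ext y
  simp [and_comm]

theorem measurable_NN (b d : Fin k → ℝ) (al : Fin k → Fin q → ℕ)
    (c a : Fin q → Fin t → ℝ) (p r : ℝ) : Measurable (NN b d al c a p r) := by
  classical
  unfold NN
  exact Measurable.ite (measurableSet_zero b d al c a) measurable_const
    (measurable_cnt b d al c a _ isOpen_Ioo)

open Classical in
/-- The number of zeros (zero if the expression vanishes identically). -/
noncomputable def NF (b d : Fin k → ℝ) (al : Fin k → Fin q → ℕ)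
    (c a : Fin q → Fin t → ℝ) (v : Fin q → Fin t → ℝ) : ℝ≥0∞ :=
  if ∀ y, FF b d al c a v y = 0 then 0
  else (({y : ℝ | FF b d al c a v y = 0}.encard : ℕ∞) : ℝ≥0∞)

theorem measurable_NF (b d : Fin k → ℝ) (al : Fin k → Fin q → ℕ)
    (c a : Fin q → Fin t → ℝ) : Measurable (NF b d al c a) := by
  classical
  unfold NF
  have h := measurable_cnt b d al c a Set.univ isOpen_univ
  simp only [Set.mem_univ, true_and] at h
  exact Measurable.ite (measurableSet_zero b d al c a) measurable_const h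

theorem encard_biUnion_le' {ι : Type*} [DecidableEq ι] (X : Finset ι) (S : ι → Set ℝ) :
    (((⋃ x ∈ X, S x).encard : ℕ∞) : ℝ≥0∞) ≤ ∑ x ∈ X, (((S x).encard : ℕ∞) : ℝ≥0∞) := by
  induction X using Finset.induction_on with
  | empty => simp
  | insert x X hx ih =>
    rw [Finset.set_biUnion_insert, Finset.sum_insert hx]
    refine (ENat.toENNReal_mono (Set.encard_union_le _ _)).trans ?_
    rw [ENat.toENNReal_add]
    exact add_le_add le_rfl ih

theorem window_le (b d : Fin k → ℝ) (al : Fin k → Fin q → ℕ) (c a : Fin q → Fin t → ℝ)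
    (M : ℝ) (X : Finset ℝ) (nx : ℝ → ℝ)
    (hX : ∀ y ∈ Ioo (-M) M, y ∈ X ∨ ∃ x ∈ X, y ∈ Ioo x (nx x)) (v : Fin q → Fin t → ℝ) :
    NN b d al c a (-M) M v ≤ (X.card : ℝ≥0∞) + ∑ x ∈ X, NN b d al c a x (nx x) v := by
  classical
  by_cases h0 : ∀ y, FF b d al c a v y = 0
  · unfold NN
    rw [if_pos h0]
    exact zero_le
  · have hsub : {y : ℝ | y ∈ Ioo (-M) M ∧ FF b d al c a v y = 0} ⊆
        (X : Set ℝ) ∪ ⋃ x ∈ X, {y : ℝ | y ∈ Ioo x (nx x) ∧ FF b d al c a v y = 0} := by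
      rintro y ⟨hy, hy0⟩
      rcases hX y hy with h | ⟨x, hx, h⟩
      · left
        exact h
      · right
        exact Set.mem_biUnion (Finset.mem_coe.mpr hx) ⟨h, hy0⟩
    unfold NN
    simp only [if_neg h0]
    refine (ENat.toENNReal_mono ((Set.encard_le_encard hsub).trans
      (Set.encard_union_le _ _))).trans ?_
    rw [ENat.toENNReal_add]
    refine add_le_add ?_ (encard_biUnion_le' X _)
    rw [Set.encard_coe_eq_coe_finsetCard]
    simp

theorem main_win (hW : SWin) (hS : SSplit) [NeZero t] (b d : Fin k → ℝ)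
    (al : Fin k → Fin q → ℕ)
    (c a : Fin q → Fin t → ℝ) (μ : Fin q → Fin t → Measure ℝ)
    [∀ j s, IsProbabilityMeasure (μ j s)] (A : ℝ≥0) (hSh : ∀ j s, Sh (μ j s))
    (hA : ∀ j s, ∫⁻ x, ‖x‖ₑ ∂(μ j s) ≤ A) (hc : ∀ j, ∃ s, c j s ≠ 0) (M : ℝ) (hM : 0 < M) :
    ∫⁻ v, NN b d al c a (-M) M v ∂(PP μ) ≤
      ((q : ℝ≥0∞) * t ^ 2 + 1) * (k + 1) + (3 * k + 2) * A * (q * t ^ 2) := by
  classical
  obtain ⟨X, nx, s0, hcard, hlt, hc0, hcov, hdis, hkap⟩ := hS q t c a hc M hM
  have hcard' : (X.card : ℝ≥0∞) ≤ (q : ℝ≥0∞) * t ^ 2 + 1 := by exact_mod_cast hcard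
  have hsum : ∑ x ∈ X, ∑ j, ∑ s,
      ‖WW (c j) (a j) (s0 x j) s (nx x) - WW (c j) (a j) (s0 x j) s x‖ₑ ≤
      (q : ℝ≥0∞) * t ^ 2 := by
    rw [Finset.sum_comm]
    calc ∑ j, ∑ x ∈ X, ∑ s, ‖WW (c j) (a j) (s0 x j) s (nx x) -
          WW (c j) (a j) (s0 x j) s x‖ₑ
        ≤ ∑ j, ∑ x ∈ X, ∫⁻ y in Ioo x (nx x), kap (c j) (a j) y :=
          Finset.sum_le_sum fun j _ => Finset.sum_le_sum fun x hx => hkap x hx j
      _ ≤ ∑ j : Fin q, (t : ℝ≥0∞) ^ 2 := by
          refine Finset.sum_le_sum fun j _ => ?_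
          rw [← lintegral_biUnion_finset (fun x hx x' hx' hne => hdis x hx x' hx' hne)
            (fun x _ => measurableSet_Ioo)]
          exact (setLIntegral_le_lintegral _ _).trans
            (Pool.Agent.T9h20.TD.kapZ Pool.Agent.T9h95.TA.sKap (hc j))
      _ = (q : ℝ≥0∞) * t ^ 2 := by simp
  calc ∫⁻ v, NN b d al c a (-M) M v ∂(PP μ)
      ≤ ∫⁻ v, ((X.card : ℝ≥0∞) + ∑ x ∈ X, NN b d al c a x (nx x) v) ∂(PP μ) :=
        lintegral_mono fun v => window_le b d al c a M X nx hcov v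
    _ = X.card + ∑ x ∈ X, ∫⁻ v, NN b d al c a x (nx x) v ∂(PP μ) := by
        have : IsProbabilityMeasure (PP μ) := Pool.Agent.T9h20.TA.isProb_PP μ
        rw [lintegral_add_left measurable_const, lintegral_const, measure_univ, mul_one,
          lintegral_finsetSum _ fun x _ => measurable_NN b d al c a x (nx x)]
    _ ≤ X.card + ∑ x ∈ X, ((k : ℝ≥0∞) + (3 * k + 2) * A *
        ∑ j, ∑ s, ‖WW (c j) (a j) (s0 x j) s (nx x) - WW (c j) (a j) (s0 x j) s x‖ₑ) := by
        refine add_le_add le_rfl (Finset.sum_le_sum fun x hx => ?_)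
        exact hW k q t b d al c a μ A hSh hA (s0 x) (hc0 x hx) x (nx x) (hlt x hx)
    _ = X.card * (k + 1) + (3 * k + 2) * A * ∑ x ∈ X, ∑ j, ∑ s,
        ‖WW (c j) (a j) (s0 x j) s (nx x) - WW (c j) (a j) (s0 x j) s x‖ₑ := by
        rw [Finset.sum_add_distrib, Finset.sum_const, nsmul_eq_mul, ← Finset.mul_sum]
        ring
    _ ≤ ((q : ℝ≥0∞) * t ^ 2 + 1) * (k + 1) + (3 * k + 2) * A * (q * t ^ 2) := by
        gcongr

/-- The bound for exponential sums. -/
theorem main_y (hW : SWin) (hS : SSplit) [NeZero t] (b d : Fin k → ℝ)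
    (al : Fin k → Fin q → ℕ)
    (c a : Fin q → Fin t → ℝ) (μ : Fin q → Fin t → Measure ℝ)
    [∀ j s, IsProbabilityMeasure (μ j s)] (A : ℝ≥0) (hSh : ∀ j s, Sh (μ j s))
    (hA : ∀ j s, ∫⁻ x, ‖x‖ₑ ∂(μ j s) ≤ A) (hc : ∀ j, ∃ s, c j s ≠ 0) :
    ∫⁻ v, NF b d al c a v ∂(PP μ) ≤
      ((q : ℝ≥0∞) * t ^ 2 + 1) * (k + 1) + (3 * k + 2) * A * (q * t ^ 2) := by
  classical
  have hmono : Monotone fun (n : ℕ) (v : Fin q → Fin t → ℝ) =>
      NN b d al c a (-((n : ℝ) + 1)) ((n : ℝ) + 1) v := by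
    intro m n hmn v
    simp only [NN]
    split_ifs
    · exact le_rfl
    · refine ENat.toENNReal_mono (Set.encard_le_encard ?_)
      rintro y ⟨⟨h1, h2⟩, h3⟩
      have hmn' : (m : ℝ) ≤ n := by exact_mod_cast hmn
      exact ⟨⟨by linarith, by linarith⟩, h3⟩
  have hsup : ∀ v, NF b d al c a v ≤
      ⨆ n : ℕ, NN b d al c a (-((n : ℝ) + 1)) ((n : ℝ) + 1) v := by
    intro v
    by_cases h0 : ∀ y, FF b d al c a v y = 0
    · unfold NF
      rw [if_pos h0]
      exact zero_le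
    · unfold NF NN
      simp only [if_neg h0]
      have key : ∀ m : ℕ, (m : ℕ∞) ≤ {y : ℝ | FF b d al c a v y = 0}.encard →
          (m : ℝ≥0∞) ≤ ⨆ n : ℕ, (({y : ℝ | y ∈ Ioo (-((n : ℝ) + 1)) ((n : ℝ) + 1) ∧
            FF b d al c a v y = 0}.encard : ℕ∞) : ℝ≥0∞) := by
        intro m hm
        obtain ⟨T, hT, hTc⟩ := Set.exists_subset_encard_eq hm
        have hfin : T.Finite := Set.finite_of_encard_eq_coe hTc
        obtain ⟨C, hC⟩ := hfin.isBounded.exists_norm_le
        obtain ⟨n, hn⟩ := exists_nat_ge C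
        refine le_trans ?_ (le_iSup _ n)
        have h1 : (m : ℕ∞) ≤ {y : ℝ | y ∈ Ioo (-((n : ℝ) + 1)) ((n : ℝ) + 1) ∧
            FF b d al c a v y = 0}.encard := by
          rw [← hTc]
          refine Set.encard_le_encard fun y hy => ⟨?_, hT hy⟩
          have h2 := hC y hy
          rw [Real.norm_eq_abs, abs_le] at h2
          exact ⟨by linarith, by linarith⟩
        have h3 := ENat.toENNReal_mono h1
        simpa using h3
      generalize {y : ℝ | FF b d al c a v y = 0}.encard = N at key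
      induction N using ENat.recTopCoe with
      | top =>
        rw [ENat.toENNReal_top, top_le_iff]
        refine ENNReal.eq_top_of_forall_nnreal_le fun x => ?_
        obtain ⟨m, hm⟩ := exists_nat_gt x
        exact le_trans (by exact_mod_cast hm.le) (key m le_top)
      | coe n =>
        simpa using key n le_rfl
  refine (lintegral_mono hsup).trans ?_
  rw [lintegral_iSup (fun n => measurable_NN b d al c a _ _) hmono]
  exact iSup_le fun n => main_win hW hS b d al c a μ A hSh hA hc _ (by positivity)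

end asm1

end Pool.Agent.T9h20.TE
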