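import Pool.Agent.T9h20.TE.Asm1
import Pool.Agent.T9h20.TC.Asm6
import Pool.Agent.T9h95.TE.Law

/-!
# Arbitrary expressions: polynomials
-/

set_option autoImplicit false

open MeasureTheory Set Filter Topology ProbabilityTheory
open scoped ENNReal NNReal

namespace Pool.Agent.T9h20.TE

open Pool.Agent.T9h20.TA (mon fn PP)

section asm2

variable {k q t : ℕ}

/-- A factor. -/
noncomputable def sv (e : Fin q → Fin t → ℕ) (u : Fin q → Fin t → ℝ) (j : Fin q) (x : ℝ) : ℝ :=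
  ∑ s, u j s * x ^ e j s

/-- The value of the expression. -/
noncomputable def ev (b : Fin k → ℝ) (d : Fin k → ℕ) (al : Fin k → Fin q → ℕ)
    (e : Fin q → Fin t → ℕ) (u : Fin q → Fin t → ℝ) (x : ℝ) : ℝ :=
  ∑ i, b i * x ^ d i * ∏ j, sv e u j x ^ al i j

/-- The polynomial. -/
noncomputable def pol (b : Fin k → ℝ) (d : Fin k → ℕ) (al : Fin k → Fin q → ℕ)
    (e : Fin q → Fin t → ℕ) (u : Fin q → Fin t → ℝ) : Polynomial ℝ :=
  ∑ i, Polynomial.C (b i) * Polynomial.X ^ d i *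
    ∏ j, (∑ s, Polynomial.C (u j s) * Polynomial.X ^ e j s) ^ al i j

theorem eval_pol (b : Fin k → ℝ) (d : Fin k → ℕ) (al : Fin k → Fin q → ℕ)
    (e : Fin q → Fin t → ℕ) (u : Fin q → Fin t → ℝ) (x : ℝ) :
    (pol b d al e u).eval x = ev b d al e u x := by
  unfold pol ev sv
  simp only [Polynomial.eval_finsetSum, Polynomial.eval_prod, Polynomial.eval_mul,
    Polynomial.eval_C, Polynomial.eval_pow, Polynomial.eval_X]

theorem pol_eq_zero (b : Fin k → ℝ) (d : Fin k → ℕ) (al : Fin k → Fin q → ℕ)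
    (e : Fin q → Fin t → ℕ) (u : Fin q → Fin t → ℝ) :
    pol b d al e u = 0 ↔ ∀ x, ev b d al e u x = 0 := by
  constructor
  · intro h x
    rw [← eval_pol, h, Polynomial.eval_zero]
  · intro h
    refine Polynomial.funext fun x => ?_
    rw [eval_pol, h x, Polynomial.eval_zero]

/-- The number of distinct real roots (zero for the zero polynomial). -/
noncomputable def nr (f : Polynomial ℝ) : ℝ≥0∞ := (f.roots.toFinset.card : ℝ≥0∞)

theorem nr_pol (b : Fin k → ℝ) (d : Fin k → ℕ) (al : Fin k → Fin q → ℕ)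
    (e : Fin q → Fin t → ℕ) (u : Fin q → Fin t → ℝ) (h : ¬ ∀ x, ev b d al e u x = 0) :
    nr (pol b d al e u) = (({x : ℝ | ev b d al e u x = 0}.encard : ℕ∞) : ℝ≥0∞) := by
  have h0 : pol b d al e u ≠ 0 := fun h' => h ((pol_eq_zero b d al e u).mp h')
  have h1 : {x : ℝ | ev b d al e u x = 0} = ((pol b d al e u).roots.toFinset : Set ℝ) := by
    ext x
    rw [Finset.mem_coe, Multiset.mem_toFinset, Polynomial.mem_roots h0, Polynomial.IsRoot.def,
      eval_pol]
    rfl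
  rw [h1, Set.encard_coe_eq_coe_finsetCard]
  unfold nr
  simp

theorem nr_pol_zero (b : Fin k → ℝ) (d : Fin k → ℕ) (al : Fin k → Fin q → ℕ)
    (e : Fin q → Fin t → ℕ) (u : Fin q → Fin t → ℝ) (h : ∀ x, ev b d al e u x = 0) :
    nr (pol b d al e u) = 0 := by
  unfold nr
  rw [(pol_eq_zero b d al e u).mpr h]
  simp

theorem continuous_ev₂ (b : Fin k → ℝ) (d : Fin k → ℕ) (al : Fin k → Fin q → ℕ)
    (e : Fin q → Fin t → ℕ) :
    Continuous fun p : (Fin q → Fin t → ℝ) × ℝ => ev b d al e p.1 p.2 := by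
  unfold ev sv
  fun_prop

theorem measurable_nr (b : Fin k → ℝ) (d : Fin k → ℕ) (al : Fin k → Fin q → ℕ)
    (e : Fin q → Fin t → ℕ) :
    Measurable fun u : Fin q → Fin t → ℝ => nr (pol b d al e u) := by
  classical
  have h1 : MeasurableSet {u : Fin q → Fin t → ℝ | ∀ x, ev b d al e u x = 0} := by
    have h : {u | ∀ x, ev b d al e u x = 0} = ⋂ x, {u | ev b d al e u x = 0} := by
      ext v
      simp
    rw [h]
    refine (isClosed_iInter fun x => isClosed_eq ?_ continuous_const).measurableSet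
    exact (continuous_ev₂ b d al e).comp (continuous_id.prodMk continuous_const)
  have h2 : Measurable fun u : Fin q → Fin t → ℝ =>
      (({x : ℝ | ev b d al e u x = 0}.encard : ℕ∞) : ℝ≥0∞) := by
    have h := Pool.Agent.T9h48.TA.sMeas (Fin q → Fin t → ℝ)
      {p | ev b d al e p.1 p.2 = 0} Set.univ
      (isClosed_eq (continuous_ev₂ b d al e) continuous_const) isOpen_univ
    convert h using 5 with v
    ext y
    simp
  have h3 : (fun u : Fin q → Fin t → ℝ => nr (pol b d al e u)) = fun u =>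
      if ∀ x, ev b d al e u x = 0 then 0 else
        (({x : ℝ | ev b d al e u x = 0}.encard : ℕ∞) : ℝ≥0∞) := by
    funext u
    split_ifs with h
    · exact nr_pol_zero b d al e u h
    · exact nr_pol b d al e u h
  rw [h3]
  exact Measurable.ite h1 measurable_const h2

theorem sv_exp (e : Fin q → Fin t → ℕ) (u : Fin q → Fin t → ℝ) (j : Fin q) (y : ℝ) :
    sv e u j (Real.exp y) = fn (fun _ => 1) (fun s => (e j s : ℝ)) (u j) y := by
  unfold sv fn mon
  refine Finset.sum_congr rfl fun s _ => ?_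
  rw [one_mul, ← Real.exp_nat_mul]

theorem sv_neg_exp (e : Fin q → Fin t → ℕ) (u : Fin q → Fin t → ℝ) (j : Fin q) (y : ℝ) :
    sv e u j (-Real.exp y) =
      fn (fun s => (-1) ^ e j s) (fun s => (e j s : ℝ)) (u j) y := by
  unfold sv fn mon
  refine Finset.sum_congr rfl fun s _ => ?_
  rw [neg_pow, ← Real.exp_nat_mul]

theorem ev_exp (b : Fin k → ℝ) (d : Fin k → ℕ) (al : Fin k → Fin q → ℕ)
    (e : Fin q → Fin t → ℕ) (u : Fin q → Fin t → ℝ) (y : ℝ) :
    ev b d al e u (Real.exp y) =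
      FF b (fun i => (d i : ℝ)) al (fun _ _ => 1) (fun j s => (e j s : ℝ)) u y := by
  unfold ev FF
  simp only [sv_exp, ← Real.exp_nat_mul]

theorem ev_neg_exp (b : Fin k → ℝ) (d : Fin k → ℕ) (al : Fin k → Fin q → ℕ)
    (e : Fin q → Fin t → ℕ) (u : Fin q → Fin t → ℝ) (y : ℝ) :
    ev b d al e u (-Real.exp y) =
      FF (fun i => b i * (-1) ^ d i) (fun i => (d i : ℝ)) al (fun j s => (-1) ^ e j s)
        (fun j s => (e j s : ℝ)) u y := by
  unfold ev FF
  simp only [sv_neg_exp]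
  refine Finset.sum_congr rfl fun i _ => ?_
  rw [neg_pow, ← Real.exp_nat_mul]
  ring

/-- Infinitely many roots. -/
theorem ev_zero_of (b : Fin k → ℝ) (d : Fin k → ℕ) (al : Fin k → Fin q → ℕ)
    (e : Fin q → Fin t → ℕ) (u : Fin q → Fin t → ℝ) (g : ℝ → ℝ) (hg : Function.Injective g)
    (h : ∀ y, ev b d al e u (g y) = 0) : ∀ x, ev b d al e u x = 0 := by
  rw [← pol_eq_zero]
  refine Polynomial.eq_zero_of_infinite_isRoot _ ?_
  refine Set.Infinite.mono ?_ (Set.infinite_range_of_injective hg)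
  rintro _ ⟨y, rfl⟩
  change (pol b d al e u).eval (g y) = 0
  rw [eval_pol]
  exact h y

theorem count_ev_le (b : Fin k → ℝ) (d : Fin k → ℕ) (al : Fin k → Fin q → ℕ)
    (e : Fin q → Fin t → ℕ) (u : Fin q → Fin t → ℝ) :
    nr (pol b d al e u) ≤ 1 +
      (NF b (fun i => (d i : ℝ)) al (fun _ _ => 1) (fun j s => (e j s : ℝ)) u +
      NF (fun i => b i * (-1) ^ d i) (fun i => (d i : ℝ)) al (fun j s => (-1) ^ e j s)
        (fun j s => (e j s : ℝ)) u) := by
  by_cases h0 : ∀ x, ev b d al e u x = 0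
  · rw [nr_pol_zero b d al e u h0]
    exact zero_le
  · have hp : ¬ ∀ y, FF b (fun i => (d i : ℝ)) al (fun _ _ => 1)
        (fun j s => (e j s : ℝ)) u y = 0 := by
      intro h
      refine h0 (ev_zero_of b d al e u Real.exp Real.exp_injective fun y => ?_)
      rw [ev_exp]
      exact h y
    have hn : ¬ ∀ y, FF (fun i => b i * (-1) ^ d i) (fun i => (d i : ℝ)) al
        (fun j s => (-1) ^ e j s) (fun j s => (e j s : ℝ)) u y = 0 := by
      intro h
      refine h0 (ev_zero_of b d al e u (fun y => -Real.exp y)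
        (fun x y hxy => Real.exp_injective (neg_injective hxy)) fun y => ?_)
      rw [ev_neg_exp]
      exact h y
    have hsub : {x : ℝ | ev b d al e u x = 0} ⊆ {0} ∪
        (Real.exp '' {y : ℝ | FF b (fun i => (d i : ℝ)) al (fun _ _ => 1)
          (fun j s => (e j s : ℝ)) u y = 0} ∪
        (fun y => -Real.exp y) '' {y : ℝ | FF (fun i => b i * (-1) ^ d i)
          (fun i => (d i : ℝ)) al (fun j s => (-1) ^ e j s)
          (fun j s => (e j s : ℝ)) u y = 0}) := by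
      intro x hx
      rcases lt_trichotomy x 0 with h | h | h
      · right; right
        refine ⟨Real.log (-x), ?_, ?_⟩
        · have h1 := ev_neg_exp b d al e u (Real.log (-x))
          rw [Real.exp_log (neg_pos.mpr h), neg_neg] at h1
          exact h1.symm.trans hx
        · simp only [Real.exp_log (neg_pos.mpr h), neg_neg]
      · left
        exact h
      · right; left
        refine ⟨Real.log x, ?_, Real.exp_log h⟩
        have h1 := ev_exp b d al e u (Real.log x)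
        rw [Real.exp_log h] at h1
        exact h1.symm.trans hx
    have h1 := (Set.encard_le_encard hsub).trans ((Set.encard_union_le _ _).trans
      (add_le_add (Set.encard_singleton _).le ((Set.encard_union_le _ _).trans
        (add_le_add (Set.encard_image_le _ _) (Set.encard_image_le _ _)))))
    have h2 := ENat.toENNReal_mono h1
    rw [nr_pol b d al e u h0]
    unfold NF
    rw [if_neg hp, if_neg hn]
    simpa only [ENat.toENNReal_add, ENat.toENNReal_one] using h2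

/-- The joint law. -/
theorem joint_law {Ω : Type*} [MeasurableSpace Ω] (P : Measure Ω) [IsProbabilityMeasure P]
    (w : Fin q → Fin t → Ω → ℝ) (hw : ∀ j s, Measurable (w j s))
    (hind : iIndepFun (fun p : Fin q × Fin t => w p.1 p.2) P) :
    P.map (fun ω (j : Fin q) (s : Fin t) => w j s ω) = PP fun j s => P.map (w j s) := by
  have hprob : ∀ j s, IsProbabilityMeasure (P.map (w j s)) := fun j s =>
    Measure.isProbabilityMeasure_map (hw j s).aemeasurable
  have h2 := iIndepFun.map_fun_eq_pi_map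
    (f := fun p : Fin q × Fin t => w p.1 p.2)
    (fun p => (hw p.1 p.2).aemeasurable) hind
  have h3 := Measure.infinitePi_map_curry (ι := Fin q) (κ := Fin t)
    (fun j s => P.map (w j s))
  rw [Measure.infinitePi_eq_pi, Measure.infinitePi_eq_pi, ← h2] at h3
  have h4 : (fun i => Measure.infinitePi fun s => P.map (w i s)) =
      fun i => Measure.pi fun s => P.map (w i s) := by
    funext i
    exact Measure.infinitePi_eq_pi _
  rw [h4] at h3
  unfold PP
  have hm2 : Measurable fun ω (p : Fin q × Fin t) => w p.1 p.2 ω :=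
    measurable_pi_lambda _ fun p => hw p.1 p.2
  rw [← h3, Measure.map_map (MeasurableEquiv.measurable _) hm2]
  rfl

/-- Scaling of the coefficients. -/
theorem FF_scale (b d : Fin k → ℝ) (al : Fin k → Fin q → ℕ) (c0 c a w : Fin q → Fin t → ℝ)
    (V : Fin q → Fin t → ℝ) (hV : ∀ j s, V j s ≠ 0) (y : ℝ) :
    FF b d al c0 a (fun j s => c j s * w j s) y =
      FF b d al (fun j s => c0 j s * c j s / V j s) a (fun j s => V j s * w j s) y := by
  have h : ∀ j, fn (c0 j) (a j) (fun s => c j s * w j s) y =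
      fn (fun s => c0 j s * c j s / V j s) (a j) (fun s => V j s * w j s) y := by
    intro j
    unfold fn mon
    refine Finset.sum_congr rfl fun s _ => ?_
    have := hV j s
    field_simp
  unfold FF
  simp only [h]

theorem NF_congr {b d : Fin k → ℝ} {al : Fin k → Fin q → ℕ} {c a c' a' v v' : Fin q → Fin t → ℝ}
    (h : ∀ y, FF b d al c a v y = FF b d al c' a' v' y) :
    NF b d al c a v = NF b d al c' a' v' := by
  have h' : FF b d al c a v = FF b d al c' a' v' := funext h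
  unfold NF
  rw [h']

/-- Scaled laws. -/
theorem sh_map {ν : Measure ℝ} {V : ℝ} (hV : 0 < V)
    (h : ∀ (x : ℝ) (A : Set ℝ), MeasurableSet A →
      ν ((fun z => z + x) ⁻¹' A) ≤ ν A + ENNReal.ofReal V * ‖x‖ₑ) :
    Sh (ν.map fun z => V * z) := by
  intro x A hA
  have hm : Measurable fun z : ℝ => V * z := measurable_const_mul _
  rw [Measure.map_apply hm (hA.preimage (measurable_add_const x)), Measure.map_apply hm hA]
  have h1 := h (x / V) ((fun z => V * z) ⁻¹' A) (hA.preimage hm)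
  have h2 : (fun z : ℝ => z + x / V) ⁻¹' ((fun z => V * z) ⁻¹' A) =
      (fun z => V * z) ⁻¹' ((fun z => z + x) ⁻¹' A) := by
    ext z
    simp only [Set.mem_preimage]
    rw [mul_add, mul_div_cancel₀ _ hV.ne']
  rw [h2] at h1
  refine h1.trans (le_of_eq ?_)
  congr 1
  rw [← Real.enorm_abs (x / V), abs_div, abs_of_pos hV, Real.enorm_eq_ofReal
    (by positivity), ← ENNReal.ofReal_mul hV.le, mul_div_cancel₀ _ hV.ne',
    ← Real.enorm_abs x, Real.enorm_eq_ofReal (abs_nonneg x)]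

/-- A bound for the number of zeros of exponential sums. -/
def Bnd (F : ℕ → ℕ → ℕ → ℝ≥0 → ℝ≥0∞) : Prop := ∀ (k q t : ℕ) [NeZero t] (b d : Fin k → ℝ)
  (al : Fin k → Fin q → ℕ) (c a : Fin q → Fin t → ℝ) (μ : Fin q → Fin t → Measure ℝ)
  [∀ j s, IsProbabilityMeasure (μ j s)] (A : ℝ≥0), (∀ j s, Sh (μ j s)) →
  (∀ j s, ∫⁻ x, ‖x‖ₑ ∂(μ j s) ≤ A) → (∀ j, ∃ s, c j s ≠ 0) →
    ∫⁻ v, NF b d al c a v ∂(PP μ) ≤ F k q t A

theorem bnd1 (hW : SWin) (hS : SSplit) : Bnd fun k q t A =>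
    ((q : ℝ≥0∞) * t ^ 2 + 1) * (k + 1) + (3 * k + 2) * A * (q * t ^ 2) :=
  fun _ _ _ _ b d al c a μ _ A hSh hA hc => main_y hW hS b d al c a μ A hSh hA hc

/-- General laws. -/
theorem main_gen {F : ℕ → ℕ → ℕ → ℝ≥0 → ℝ≥0∞} (hF : Bnd F) {Ω : Type*}
    [MeasurableSpace Ω] (P : Measure Ω)
    [IsProbabilityMeasure P] (ht : 1 ≤ t) (b : Fin k → ℝ) (d : Fin k → ℕ)
    (al : Fin k → Fin q → ℕ) (e : Fin q → Fin t → ℕ) (c : Fin q → Fin t → ℝ)
    (hc : ∀ j, ∃ s, c j s ≠ 0)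
    (w : Fin q → Fin t → Ω → ℝ) (hw : ∀ j s, Measurable (w j s))
    (hind : iIndepFun (fun p : Fin q × Fin t => w p.1 p.2) P)
    (G : ℝ≥0) (hG : ∀ j s, ∃ V : ℝ, 0 < V ∧
      (∀ (x : ℝ) (A : Set ℝ), MeasurableSet A →
        P {ω | w j s ω + x ∈ A} ≤ P {ω | w j s ω ∈ A} + ENNReal.ofReal V * ‖x‖ₑ) ∧
      ENNReal.ofReal V * ∫⁻ ω, ‖w j s ω‖ₑ ∂P ≤ G) :
    ∫⁻ ω, nr (pol b d al e fun j s => c j s * w j s ω) ∂P ≤
      1 + 2 * F k q t G := by
  have : NeZero t := ⟨by omega⟩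
  choose V hV0 hV1 hV2 using hG
  have hw' : ∀ j s, Measurable fun ω => V j s * w j s ω := fun j s => (hw j s).const_mul _
  have hprob : ∀ j s, IsProbabilityMeasure (P.map fun ω => V j s * w j s ω) :=
    fun j s => Measure.isProbabilityMeasure_map (hw' j s).aemeasurable
  have hind' : iIndepFun (fun p : Fin q × Fin t => fun ω => V p.1 p.2 * w p.1 p.2 ω) P :=
    hind.comp (fun p x => V p.1 p.2 * x) (fun p => measurable_const_mul _)
  have hSh : ∀ j s, Sh (P.map fun ω => V j s * w j s ω) := by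
    intro j s
    have h1 : P.map (fun ω => V j s * w j s ω) = (P.map (w j s)).map fun z => V j s * z :=
      (Measure.map_map (measurable_const_mul _) (hw j s)).symm
    rw [h1]
    refine sh_map (hV0 j s) fun x A hA => ?_
    rw [Measure.map_apply (hw j s) hA,
      Measure.map_apply (hw j s) (hA.preimage (measurable_add_const x))]
    exact hV1 j s x A hA
  have hA : ∀ j s, ∫⁻ x, ‖x‖ₑ ∂(P.map fun ω => V j s * w j s ω) ≤ G := by
    intro j s
    rw [lintegral_map measurable_enorm (hw' j s)]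
    have h1 : ∀ ω, ‖V j s * w j s ω‖ₑ = ENNReal.ofReal (V j s) * ‖w j s ω‖ₑ := by
      intro ω
      rw [enorm_mul, Real.enorm_eq_ofReal (hV0 j s).le]
    simp only [h1]
    rw [lintegral_const_mul _ (hw j s).enorm]
    exact hV2 j s
  have hJ : Measurable fun ω => fun (j : Fin q) (s : Fin t) => V j s * w j s ω :=
    measurable_pi_lambda _ fun j => measurable_pi_lambda _ fun s => hw' j s
  set X : ℝ≥0∞ := F k q t G with hX
  have key : ∀ (b' : Fin k → ℝ) (c0 : Fin q → Fin t → ℝ), (∀ j s, c0 j s ≠ 0) →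
      (Measurable fun ω => NF b' (fun i => (d i : ℝ)) al c0 (fun j s => (e j s : ℝ))
        (fun j s => c j s * w j s ω)) ∧
      ∫⁻ ω, NF b' (fun i => (d i : ℝ)) al c0 (fun j s => (e j s : ℝ))
        (fun j s => c j s * w j s ω) ∂P ≤ X := by
    intro b' c0 hc0
    have h1 : ∀ ω, NF b' (fun i => (d i : ℝ)) al c0 (fun j s => (e j s : ℝ))
        (fun j s => c j s * w j s ω) = NF b' (fun i => (d i : ℝ)) al
        (fun j s => c0 j s * c j s / V j s) (fun j s => (e j s : ℝ))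
        (fun j s => V j s * w j s ω) := fun ω =>
      NF_congr fun y => FF_scale _ _ _ _ _ _ _ V (fun j s => (hV0 j s).ne') y
    simp only [h1]
    refine ⟨(measurable_NF _ _ _ _ _).comp hJ, ?_⟩
    have h2 := hF k q t b' (fun i => (d i : ℝ)) al (fun j s => c0 j s * c j s / V j s)
      (fun j s => (e j s : ℝ)) (fun j s => P.map fun ω => V j s * w j s ω) G hSh hA
      (fun j => by
        obtain ⟨s, hs⟩ := hc j
        exact ⟨s, div_ne_zero (mul_ne_zero (hc0 j s) hs) (hV0 j s).ne'⟩)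
    rw [← joint_law P (fun j s ω => V j s * w j s ω) hw' hind',
      lintegral_map (measurable_NF _ _ _ _ _) hJ] at h2
    exact h2
  have k1 := key b (fun _ _ => 1) fun _ _ => one_ne_zero
  have k2 := key (fun i => b i * (-1) ^ d i) (fun j s => (-1) ^ e j s)
    fun _ _ => pow_ne_zero _ (by norm_num)
  calc ∫⁻ ω, nr (pol b d al e fun j s => c j s * w j s ω) ∂P
      ≤ ∫⁻ ω, (1 + (NF b (fun i => (d i : ℝ)) al (fun _ _ => 1) (fun j s => (e j s : ℝ))
        (fun j s => c j s * w j s ω) +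
        NF (fun i => b i * (-1) ^ d i) (fun i => (d i : ℝ)) al (fun j s => (-1) ^ e j s)
        (fun j s => (e j s : ℝ)) (fun j s => c j s * w j s ω))) ∂P :=
        lintegral_mono fun ω => count_ev_le b d al e _
    _ = 1 + (∫⁻ ω, NF b (fun i => (d i : ℝ)) al (fun _ _ => 1) (fun j s => (e j s : ℝ))
        (fun j s => c j s * w j s ω) ∂P +
        ∫⁻ ω, NF (fun i => b i * (-1) ^ d i) (fun i => (d i : ℝ)) al
          (fun j s => (-1) ^ e j s) (fun j s => (e j s : ℝ))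
          (fun j s => c j s * w j s ω) ∂P) := by
        rw [lintegral_add_left measurable_const, lintegral_const, measure_univ, mul_one,
          lintegral_add_left k1.1]
    _ ≤ 1 + (X + X) := by
        gcongr
        · exact k1.2
        · exact k2.2
    _ = 1 + 2 * X := by rw [two_mul]

theorem num1 (k q t : ℕ) (hk : 1 ≤ k) (hq : 1 ≤ q) (ht : 1 ≤ t) (G : ℝ≥0) :
    1 + 2 * (((q : ℝ≥0∞) * t ^ 2 + 1) * (k + 1) + (3 * k + 2) * G * (q * t ^ 2)) ≤
      1 + 10 * (k : ℝ≥0∞) * q * t ^ 2 * (1 + G) := by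
  have h1 : (1 : ℝ≥0∞) ≤ q * t ^ 2 := by
    have : 1 ≤ q * t ^ 2 := Nat.mul_pos hq (pow_pos ht 2)
    exact_mod_cast this
  have h2 : (1 : ℝ≥0∞) ≤ k := by exact_mod_cast hk
  have h3 : ((q : ℝ≥0∞) * t ^ 2 + 1) * (k + 1) ≤ (q * t ^ 2 + q * t ^ 2) * (k + k) := by
    gcongr
  have h4 : (3 * (k : ℝ≥0∞) + 2) * (G : ℝ≥0∞) * (q * t ^ 2) ≤
      (3 * k + 2 * k) * (G : ℝ≥0∞) * (q * t ^ 2) := by
    gcongr
    calc (2 : ℝ≥0∞) = 2 * 1 := (mul_one 2).symm
      _ ≤ 2 * k := by gcongr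
  calc 1 + 2 * (((q : ℝ≥0∞) * t ^ 2 + 1) * (k + 1) + (3 * k + 2) * G * (q * t ^ 2))
      ≤ 1 + 2 * (((q : ℝ≥0∞) * t ^ 2 + q * t ^ 2) * (k + k) +
          (3 * k + 2 * k) * (G : ℝ≥0∞) * (q * t ^ 2)) := by
        gcongr
    _ = 1 + (8 * ((k : ℝ≥0∞) * (q * t ^ 2)) + 10 * (k * (q * t ^ 2)) * (G : ℝ≥0∞)) := by ring
    _ ≤ 1 + (10 * ((k : ℝ≥0∞) * (q * t ^ 2)) + 10 * (k * (q * t ^ 2)) * (G : ℝ≥0∞)) := by
        gcongr
        norm_num
    _ = 1 + 10 * (k : ℝ≥0∞) * q * t ^ 2 * (1 + G) := by ring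

/-- Smoothed coefficients. -/
theorem main_smooth {F : ℕ → ℕ → ℕ → ℝ≥0 → ℝ≥0∞} (hF : Bnd F) {Ω : Type*}
    [MeasurableSpace Ω] (P : Measure Ω)
    [IsProbabilityMeasure P] (ht : 1 ≤ t) (b : Fin k → ℝ) (d : Fin k → ℕ)
    (al : Fin k → Fin q → ℕ) (e : Fin q → Fin t → ℕ) (a τ : Fin q → Fin t → ℝ) (R : ℝ≥0)
    (hτ : ∀ j s, 0 ≤ τ j s) (hτ' : ∀ j, ∃ s, 0 < τ j s) (ha : ∀ j s, |a j s| ≤ R * τ j s)
    (ξ : Fin q → Fin t → Ω → ℝ) (hξ : ∀ j s, Measurable (ξ j s))
    (hind : iIndepFun (fun p : Fin q × Fin t => ξ p.1 p.2) P)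
    (hlaw : ∀ j s, P.map (ξ j s) =
      (2 : ℝ≥0∞)⁻¹ • (volume : Measure ℝ).restrict (Set.Icc (-1) 1)) :
    ∫⁻ ω, nr (pol b d al e fun j s => a j s + τ j s * ξ j s ω) ∂P ≤
      1 + 2 * F k q t ((R + 1) / 2) := by
  have key : ∀ ω, (fun j s => a j s + τ j s * ξ j s ω) =
      fun j s => (2 * τ j s) * ((a j s / τ j s + ξ j s ω) / 2) := by
    intro ω
    funext j s
    rcases (hτ j s).lt_or_eq with h | h
    · have h' := h.ne'
      field_simp
    · have h0 := ha j s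
      rw [← h, mul_zero] at h0
      rw [← h, abs_nonpos_iff.mp h0]
      ring
  simp only [key]
  have hb : ∀ j s, |a j s / τ j s| ≤ (R : ℝ) := by
    intro j s
    rw [abs_div, abs_of_nonneg (hτ j s)]
    exact div_le_of_le_mul₀ (hτ j s) (NNReal.coe_nonneg R) (ha j s)
  have hm : ∀ j s, Measurable fun ω => (a j s / τ j s + ξ j s ω) / 2 := fun j s => by
    have := hξ j s
    fun_prop
  refine main_gen hF P ht b d al e (fun j s => 2 * τ j s)
    (fun j => by
      obtain ⟨s, hs⟩ := hτ' j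
      exact ⟨s, by positivity⟩) (fun j s ω => (a j s / τ j s + ξ j s ω) / 2) hm ?_
    ((R + 1) / 2) fun j s => ⟨1, one_pos, ?_, ?_⟩
  · exact hind.comp (fun p x => (a p.1 p.2 / τ p.1 p.2 + x) / 2) (fun p => by fun_prop)
  · intro x A hA
    have h1 := Pool.Agent.T9h95.TE.K2 (hξ j s) (hlaw j s) (a j s / τ j s) x A hA
    rw [Measure.map_apply (hm j s) hA,
      Measure.map_apply (hm j s) (hA.preimage (measurable_add_const x))] at h1
    rw [ENNReal.ofReal_one, one_mul]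
    exact h1
  · rw [ENNReal.ofReal_one, one_mul]
    refine (Pool.Agent.T9h95.TE.K2e (hξ j s) (hlaw j s) (hb j s)).trans (le_of_eq ?_)
    rw [← ENNReal.ofReal_coe_nnreal]
    push_cast
    rfl

theorem num2 (k q t : ℕ) (hk : 1 ≤ k) (hq : 1 ≤ q) (ht : 1 ≤ t) (R : ℝ≥0) :
    1 + 2 * (((q : ℝ≥0∞) * t ^ 2 + 1) * (k + 1) +
      (3 * k + 2) * (((R + 1) / 2 : ℝ≥0) : ℝ≥0∞) * (q * t ^ 2)) ≤
      1 + 5 * (k : ℝ≥0∞) * q * t ^ 2 * (R + 3) := by
  refine (num1 k q t hk hq ht ((R + 1) / 2)).trans (le_of_eq ?_)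
  have h : (1 : ℝ≥0∞) + (((R + 1) / 2 : ℝ≥0) : ℝ≥0∞) = (((R + 3) / 2 : ℝ≥0) : ℝ≥0∞) := by
    rw [← ENNReal.coe_one, ← ENNReal.coe_add]
    congr 1
    rw [← NNReal.coe_inj]
    push_cast
    ring
  have h2 : (10 : ℝ≥0∞) * (((R + 3) / 2 : ℝ≥0) : ℝ≥0∞) = 5 * ((R : ℝ≥0∞) + 3) := by
    have h3 : (10 : ℝ≥0) * ((R + 3) / 2) = 5 * (R + 3) := by
      rw [← NNReal.coe_inj]
      push_cast
      ring
    have h4 := congrArg (fun x : ℝ≥0 => (x : ℝ≥0∞)) h3
    push_cast at h4 ⊢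
    exact h4
  rw [h]
  calc 1 + 10 * (k : ℝ≥0∞) * q * t ^ 2 * (((R + 3) / 2 : ℝ≥0) : ℝ≥0∞)
      = 1 + (k : ℝ≥0∞) * q * t ^ 2 * (10 * (((R + 3) / 2 : ℝ≥0) : ℝ≥0∞)) := by ring
    _ = 1 + 5 * (k : ℝ≥0∞) * q * t ^ 2 * (R + 3) := by rw [h2]; ring

end asm2

end Pool.Agent.T9h20.TE
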