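import Pool.Agent.T9h20.TE.Spec2
import Pool.Agent.T9h20.TE.Asm2

/-!
# Arbitrary expressions: the bound which is linear in the number of monomials
-/

set_option autoImplicit false

open MeasureTheory Set Filter Topology
open scoped ENNReal NNReal

namespace Pool.Agent.T9h20.TE

open Pool.Agent.T9h20.TA (mon fn PP)

section asm3

variable {k q t : ℕ}

theorem main_win2 (hW : SWin) (hS : SSplit2) [NeZero t] (b d : Fin k → ℝ)
    (al : Fin k → Fin q → ℕ)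
    (c a : Fin q → Fin t → ℝ) (μ : Fin q → Fin t → Measure ℝ)
    [∀ j s, IsProbabilityMeasure (μ j s)] (A : ℝ≥0) (hSh : ∀ j s, Sh (μ j s))
    (hA : ∀ j s, ∫⁻ x, ‖x‖ₑ ∂(μ j s) ≤ A) (hc : ∀ j, ∃ s, c j s ≠ 0) (M : ℝ) (hM : 0 < M) :
    ∫⁻ v, NN b d al c a (-M) M v ∂(PP μ) ≤
      (2 * (q : ℝ≥0∞) * t + 1) * (k + 1) + (3 * k + 2) * A * (2 * q * t) := by
  classical
  obtain ⟨X, nx, s0, hcard, hlt, hc0, hcov, hvar⟩ := hS q t c a hc M hM
  have hcard' : (X.card : ℝ≥0∞) ≤ 2 * (q : ℝ≥0∞) * t + 1 := by exact_mod_cast hcard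
  have hsum : ∑ x ∈ X, ∑ j, ∑ s,
      ‖WW (c j) (a j) (s0 x j) s (nx x) - WW (c j) (a j) (s0 x j) s x‖ₑ ≤
      2 * (q : ℝ≥0∞) * t := by
    rw [Finset.sum_comm]
    calc ∑ j, ∑ x ∈ X, ∑ s, ‖WW (c j) (a j) (s0 x j) s (nx x) -
          WW (c j) (a j) (s0 x j) s x‖ₑ
        = ∑ j, ∑ s, ∑ x ∈ X, ‖WW (c j) (a j) (s0 x j) s (nx x) -
          WW (c j) (a j) (s0 x j) s x‖ₑ :=
          Finset.sum_congr rfl fun j _ => Finset.sum_comm
      _ ≤ ∑ j : Fin q, ∑ s : Fin t, (2 : ℝ≥0∞) :=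
          Finset.sum_le_sum fun j _ => Finset.sum_le_sum fun s _ => hvar j s
      _ = 2 * (q : ℝ≥0∞) * t := by
          simp only [Finset.sum_const, Finset.card_univ, Fintype.card_fin, nsmul_eq_mul]
          ring
  calc ∫⁻ v, NN b d al c a (-M) M v ∂(PP μ)
      ≤ ∫⁻ v, ((X.card : ℝ≥0∞) + ∑ x ∈ X, NN b d al c a x (nx x) v) ∂(PP μ) :=
        lintegral_mono fun v => window_le b d al c a M X nx hcov v
    _ = X.card + ∑ x ∈ X, ∫⁻ v, NN b d al c a x (nx x) v ∂(PP μ) := by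
        have : IsProbabilityMeasure (PP μ) := Pool.Agent.T9h20.TA.isProb_PP μ
        rw [lintegral_add_left measurable_const, lintegral_const, measure_univ, mul_one,
          lintegral_finsetSum _ fun x _ => measurable_NN b d al c a x (nx x)]
    _ ≤ X.card + ∑ x ∈ X, ((k : ℝ≥0∞) + (3 * k + 2) * A *
        ∑ j, ∑ s, ‖WW (c j) (a j) (s0 x j) s (nx x) - WW (c j) (a j) (s0 x j) s x‖ₑ) := by
        refine add_le_add le_rfl (Finset.sum_le_sum fun x hx => ?_)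
        exact hW k q t b d al c a μ A hSh hA (s0 x) (hc0 x hx) x (nx x) (hlt x hx)
    _ = X.card * (k + 1) + (3 * k + 2) * A * ∑ x ∈ X, ∑ j, ∑ s,
        ‖WW (c j) (a j) (s0 x j) s (nx x) - WW (c j) (a j) (s0 x j) s x‖ₑ := by
        rw [Finset.sum_add_distrib, Finset.sum_const, nsmul_eq_mul, ← Finset.mul_sum]
        ring
    _ ≤ (2 * (q : ℝ≥0∞) * t + 1) * (k + 1) + (3 * k + 2) * A * (2 * q * t) := by
        gcongr

/-- The bound for exponential sums. -/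
theorem main_y2 (hW : SWin) (hS : SSplit2) [NeZero t] (b d : Fin k → ℝ)
    (al : Fin k → Fin q → ℕ)
    (c a : Fin q → Fin t → ℝ) (μ : Fin q → Fin t → Measure ℝ)
    [∀ j s, IsProbabilityMeasure (μ j s)] (A : ℝ≥0) (hSh : ∀ j s, Sh (μ j s))
    (hA : ∀ j s, ∫⁻ x, ‖x‖ₑ ∂(μ j s) ≤ A) (hc : ∀ j, ∃ s, c j s ≠ 0) :
    ∫⁻ v, NF b d al c a v ∂(PP μ) ≤
      (2 * (q : ℝ≥0∞) * t + 1) * (k + 1) + (3 * k + 2) * A * (2 * q * t) := by
  classical
  have hmono : Monotone fun (n : ℕ) (v : Fin q → Fin t → ℝ) =>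
      NN b d al c a (-((n : ℝ) + 1)) ((n : ℝ) + 1) v := by
    intro m n hmn v
    simp only [NN]
    split_ifs
    · exact le_rfl
    · refine ENat.toENNReal_mono (Set.encard_le_encard ?_)
      rintro y ⟨⟨h1, h2⟩, h3⟩
      have hmn' : (m : ℝ) ≤ n := by exact_mod_cast hmn
      exact ⟨⟨by linarith, by linarith⟩, h3⟩
  have hsup : ∀ v, NF b d al c a v ≤
      ⨆ n : ℕ, NN b d al c a (-((n : ℝ) + 1)) ((n : ℝ) + 1) v := by
    intro v
    by_cases h0 : ∀ y, FF b d al c a v y = 0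
    · unfold NF
      rw [if_pos h0]
      exact zero_le
    · unfold NF NN
      simp only [if_neg h0]
      have key : ∀ m : ℕ, (m : ℕ∞) ≤ {y : ℝ | FF b d al c a v y = 0}.encard →
          (m : ℝ≥0∞) ≤ ⨆ n : ℕ, (({y : ℝ | y ∈ Ioo (-((n : ℝ) + 1)) ((n : ℝ) + 1) ∧
            FF b d al c a v y = 0}.encard : ℕ∞) : ℝ≥0∞) := by
        intro m hm
        obtain ⟨T, hT, hTc⟩ := Set.exists_subset_encard_eq hm
        have hfin : T.Finite := Set.finite_of_encard_eq_coe hTc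
        obtain ⟨C, hC⟩ := hfin.isBounded.exists_norm_le
        obtain ⟨n, hn⟩ := exists_nat_ge C
        refine le_trans ?_ (le_iSup _ n)
        have h1 : (m : ℕ∞) ≤ {y : ℝ | y ∈ Ioo (-((n : ℝ) + 1)) ((n : ℝ) + 1) ∧
            FF b d al c a v y = 0}.encard := by
          rw [← hTc]
          refine Set.encard_le_encard fun y hy => ⟨?_, hT hy⟩
          have h2 := hC y hy
          rw [Real.norm_eq_abs, abs_le] at h2
          exact ⟨by linarith, by linarith⟩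
        have h3 := ENat.toENNReal_mono h1
        simpa using h3
      generalize {y : ℝ | FF b d al c a v y = 0}.encard = N at key
      induction N using ENat.recTopCoe with
      | top =>
        rw [ENat.toENNReal_top, top_le_iff]
        refine ENNReal.eq_top_of_forall_nnreal_le fun x => ?_
        obtain ⟨m, hm⟩ := exists_nat_gt x
        exact le_trans (by exact_mod_cast hm.le) (key m le_top)
      | coe n =>
        simpa using key n le_rfl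
  refine (lintegral_mono hsup).trans ?_
  rw [lintegral_iSup (fun n => measurable_NN b d al c a _ _) hmono]
  exact iSup_le fun n => main_win2 hW hS b d al c a μ A hSh hA hc _ (by positivity)

theorem bnd2 (hW : SWin) (hS : SSplit2) : Bnd fun k q t A =>
    (2 * (q : ℝ≥0∞) * t + 1) * (k + 1) + (3 * k + 2) * A * (2 * q * t) :=
  fun _ _ _ _ b d al c a μ _ A hSh hA hc => main_y2 hW hS b d al c a μ A hSh hA hc

theorem num3 (k q t : ℕ) (hk : 1 ≤ k) (hq : 1 ≤ q) (ht : 1 ≤ t) (G : ℝ≥0) :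
    1 + 2 * ((2 * (q : ℝ≥0∞) * t + 1) * (k + 1) + (3 * k + 2) * G * (2 * q * t)) ≤
      1 + 20 * (k : ℝ≥0∞) * q * t * (1 + G) := by
  have h1 : (1 : ℝ≥0∞) ≤ q * t := by
    have : 1 ≤ q * t := Nat.mul_pos hq ht
    exact_mod_cast this
  have h2 : (1 : ℝ≥0∞) ≤ k := by exact_mod_cast hk
  have h3 : (2 * (q : ℝ≥0∞) * t + 1) * (k + 1) ≤ (2 * q * t + q * t) * (k + k) := by
    gcongr
  have h4 : (3 * (k : ℝ≥0∞) + 2) * (G : ℝ≥0∞) * (2 * q * t) ≤
      (3 * k + 2 * k) * (G : ℝ≥0∞) * (2 * q * t) := by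
    gcongr
    calc (2 : ℝ≥0∞) = 2 * 1 := (mul_one 2).symm
      _ ≤ 2 * k := by gcongr
  calc 1 + 2 * ((2 * (q : ℝ≥0∞) * t + 1) * (k + 1) + (3 * k + 2) * G * (2 * q * t))
      ≤ 1 + 2 * ((2 * (q : ℝ≥0∞) * t + q * t) * (k + k) +
          (3 * k + 2 * k) * (G : ℝ≥0∞) * (2 * q * t)) := by
        gcongr
    _ = 1 + (12 * ((k : ℝ≥0∞) * (q * t)) + 20 * (k * (q * t)) * (G : ℝ≥0∞)) := by ring
    _ ≤ 1 + (20 * ((k : ℝ≥0∞) * (q * t)) + 20 * (k * (q * t)) * (G : ℝ≥0∞)) := by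
        gcongr
        norm_num
    _ = 1 + 20 * (k : ℝ≥0∞) * q * t * (1 + G) := by ring

theorem num4 (k q t : ℕ) (hk : 1 ≤ k) (hq : 1 ≤ q) (ht : 1 ≤ t) (R : ℝ≥0) :
    1 + 2 * ((2 * (q : ℝ≥0∞) * t + 1) * (k + 1) +
      (3 * k + 2) * (((R + 1) / 2 : ℝ≥0) : ℝ≥0∞) * (2 * q * t)) ≤
      1 + 10 * (k : ℝ≥0∞) * q * t * (R + 3) := by
  refine (num3 k q t hk hq ht ((R + 1) / 2)).trans (le_of_eq ?_)
  have h : (1 : ℝ≥0∞) + (((R + 1) / 2 : ℝ≥0) : ℝ≥0∞) = (((R + 3) / 2 : ℝ≥0) : ℝ≥0∞) := by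
    rw [← ENNReal.coe_one, ← ENNReal.coe_add]
    congr 1
    rw [← NNReal.coe_inj]
    push_cast
    ring
  have h2 : (20 : ℝ≥0∞) * (((R + 3) / 2 : ℝ≥0) : ℝ≥0∞) = 10 * ((R : ℝ≥0∞) + 3) := by
    have h3 : (20 : ℝ≥0) * ((R + 3) / 2) = 10 * (R + 3) := by
      rw [← NNReal.coe_inj]
      push_cast
      ring
    have h4 := congrArg (fun x : ℝ≥0 => (x : ℝ≥0∞)) h3
    push_cast at h4 ⊢
    exact h4
  rw [h]
  calc 1 + 20 * (k : ℝ≥0∞) * q * t * (((R + 3) / 2 : ℝ≥0) : ℝ≥0∞)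
      = 1 + (k : ℝ≥0∞) * q * t * (20 * (((R + 3) / 2 : ℝ≥0) : ℝ≥0∞)) := by ring
    _ = 1 + 10 * (k : ℝ≥0∞) * q * t * (R + 3) := by rw [h2]; ring

end asm3

end Pool.Agent.T9h20.TE
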