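import Pool.Agent.T9h20.TE.Asm3
import Pool.Agent.T9h20.TD.Kmt

/-!
# Sums of `k` products of `m` factors
-/

set_option autoImplicit false

open MeasureTheory Set ProbabilityTheory
open scoped ENNReal NNReal

namespace Pool.Agent.T9h20.TE

open Pool.Agent.T9h20.TD (al' prod_al')

section asm4

variable {k m t : ℕ}

/-- The polynomial `∑ i, ∏ j, ∑ s, u i j s * X ^ e i j s`. -/
noncomputable def sps (e : Fin k → Fin m → Fin t → ℕ) (u : Fin k → Fin m → Fin t → ℝ) :
    Polynomial ℝ :=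
  ∑ i, ∏ j, ∑ s, Polynomial.C (u i j s) * Polynomial.X ^ e i j s

/-- Rearrangement of the factors. -/
def rk {X : Type*} (u : Fin k → Fin m → X) (p : Fin (k * m)) : X :=
  u (finProdFinEquiv.symm p).1 (finProdFinEquiv.symm p).2

theorem pol_rk (e : Fin k → Fin m → Fin t → ℕ) (u : Fin k → Fin m → Fin t → ℝ) :
    pol (fun _ => 1) (fun _ => 0) (al' k m) (rk e) (rk u) = sps e u := by
  refine Polynomial.funext fun x => ?_
  rw [eval_pol]
  unfold sps ev
  simp only [Polynomial.eval_finsetSum, Polynomial.eval_prod, Polynomial.eval_mul,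
    Polynomial.eval_C, Polynomial.eval_pow, Polynomial.eval_X]
  refine Finset.sum_congr rfl fun i _ => ?_
  rw [one_mul, pow_zero, one_mul]
  exact prod_al' i fun i r => ∑ s, u i r s * x ^ e i r s

theorem injective_rk : Function.Injective fun p : Fin (k * m) × Fin t =>
    ((finProdFinEquiv.symm p.1).1, (finProdFinEquiv.symm p.1).2, p.2) := by
  rintro ⟨b, s⟩ ⟨b', s'⟩ h
  simp only [Prod.mk.injEq] at h
  obtain ⟨h1, h2, h3⟩ := h
  subst h3
  have h4 : finProdFinEquiv.symm b = finProdFinEquiv.symm b' := Prod.ext h1 h2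
  rw [finProdFinEquiv.symm.injective h4]

/-- Smoothed coefficients, `k` products of `m` factors. -/
theorem kmt_smooth {F : ℕ → ℕ → ℕ → ℝ≥0 → ℝ≥0∞} (hF : Bnd F) {Ω : Type*}
    [MeasurableSpace Ω] (P : Measure Ω)
    [IsProbabilityMeasure P] (ht : 1 ≤ t) (e : Fin k → Fin m → Fin t → ℕ)
    (a τ : Fin k → Fin m → Fin t → ℝ) (R : ℝ≥0)
    (hτ : ∀ i j s, 0 ≤ τ i j s) (hτ' : ∀ i j, ∃ s, 0 < τ i j s)
    (ha : ∀ i j s, |a i j s| ≤ R * τ i j s)
    (ξ : Fin k → Fin m → Fin t → Ω → ℝ) (hξ : ∀ i j s, Measurable (ξ i j s))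
    (hind : iIndepFun (fun p : Fin k × Fin m × Fin t => ξ p.1 p.2.1 p.2.2) P)
    (hlaw : ∀ i j s, P.map (ξ i j s) =
      (2 : ℝ≥0∞)⁻¹ • (volume : Measure ℝ).restrict (Set.Icc (-1) 1)) :
    ∫⁻ ω, nr (sps e fun i j s => a i j s + τ i j s * ξ i j s ω) ∂P ≤
      1 + 2 * F k (k * m) t ((R + 1) / 2) := by
  have h := main_smooth hF P ht (fun _ : Fin k => 1) (fun _ => 0) (al' k m) (rk e) (rk a)
    (rk τ) R (fun _ _ => hτ _ _ _) (fun _ => hτ' _ _) (fun _ _ => ha _ _ _) (rk ξ)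
    (fun _ _ => hξ _ _ _) (hind.precomp injective_rk) (fun _ _ => hlaw _ _ _)
  have e2 : ∀ ω, (fun (b : Fin (k * m)) s => rk a b s + rk τ b s * rk ξ b s ω) =
      rk fun i j s => a i j s + τ i j s * ξ i j s ω := fun ω => rfl
  simp only [e2, pol_rk] at h
  exact h

theorem measurable_nr_sps (e : Fin k → Fin m → Fin t → ℕ) :
    Measurable fun u : Fin k → Fin m → Fin t → ℝ => nr (sps e u) := by
  simp only [← pol_rk]
  refine (measurable_nr (fun _ : Fin k => 1) (fun _ => 0) (al' k m) (rk e)).comp ?_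
  refine measurable_pi_lambda _ fun p => measurable_pi_lambda _ fun s => ?_
  unfold rk
  fun_prop

end asm4

end Pool.Agent.T9h20.TE
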