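import Pool.Agent.T9h20.TE.Asm4

/-!
# Robust roots: a deterministic consequence
-/

set_option autoImplicit false

open MeasureTheory Set ProbabilityTheory
open scoped ENNReal NNReal

namespace Pool.Agent.T9h20.TE

section asm5

variable {k q t : ℕ}

/-- The uniform distribution on `[-1, 1]`. -/
noncomputable def uni : Measure ℝ :=
  (2 : ℝ≥0∞)⁻¹ • (volume : Measure ℝ).restrict (Set.Icc (-1) 1)

instance : IsProbabilityMeasure uni := by
  constructor
  unfold uni
  rw [Measure.smul_apply, Measure.restrict_apply_univ, Real.volume_Icc, smul_eq_mul]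
  norm_num
  exact ENNReal.inv_mul_cancel (by norm_num) (by norm_num)

theorem uni_ae : ∀ᵐ x ∂uni, |x| ≤ 1 := by
  unfold uni
  refine Measure.ae_smul_measure ?_ _
  refine (ae_restrict_iff' measurableSet_Icc).mpr (Filter.Eventually.of_forall fun x hx => ?_)
  exact abs_le.mpr ⟨hx.1, hx.2⟩

/-- Roots which are stable under all perturbations of relative size at most `ρ`. -/
theorem robust {F : ℕ → ℕ → ℕ → ℝ≥0 → ℝ≥0∞} (hF : Bnd F) (ht : 1 ≤ t) (b : Fin k → ℝ)
    (d : Fin k → ℕ) (al : Fin k → Fin q → ℕ) (e : Fin q → Fin t → ℕ)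
    (u : Fin q → Fin t → ℝ) (hu : ∀ j, ∃ s, u j s ≠ 0) (ρ : ℝ≥0) (hρ : 0 < ρ) (N : ℝ≥0∞)
    (hN : ∀ u' : Fin q → Fin t → ℝ, (∀ j s, |u' j s - u j s| ≤ ρ * |u j s|) →
      N ≤ nr (pol b d al e u')) :
    N ≤ 1 + 2 * F k q t ((ρ⁻¹ + 1) / 2) := by
  set P : Measure (Fin q × Fin t → ℝ) := Measure.pi fun _ => uni with hP
  have h1 := main_smooth hF P ht b d al e u (fun j s => ρ * |u j s|) ρ⁻¹
    (fun j s => by positivity)
    (fun j => by
      obtain ⟨s, hs⟩ := hu j
      exact ⟨s, by positivity⟩)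
    (fun j s => by
      rw [NNReal.coe_inv, ← mul_assoc, inv_mul_cancel₀ (by positivity), one_mul])
    (fun j s x => x (j, s)) (fun j s => measurable_pi_apply _)
    (iIndepFun_pi (X := fun _ x => x) fun _ => aemeasurable_id)
    (fun j s => (measurePreserving_eval (fun _ : Fin q × Fin t => uni) (j, s)).map_eq)
  refine le_trans ?_ h1
  have h2 : ∀ᵐ x ∂P, ∀ p, |x p| ≤ 1 := by
    rw [ae_all_iff]
    intro p
    exact (measurePreserving_eval (fun _ : Fin q × Fin t => uni) p).quasiMeasurePreserving.ae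
      uni_ae
  calc N = ∫⁻ _, N ∂P := by rw [lintegral_const, measure_univ, mul_one]
    _ ≤ _ := by
      refine lintegral_mono_ae ?_
      filter_upwards [h2] with x hx
      refine hN _ fun j s => ?_
      have h3 := hx (j, s)
      have h4 : u j s + ρ * |u j s| * x (j, s) - u j s = ρ * |u j s| * x (j, s) := by ring
      rw [h4, abs_mul, abs_of_nonneg (by positivity : (0 : ℝ) ≤ ρ * |u j s|)]
      exact mul_le_of_le_one_right (by positivity) h3

end asm5

end Pool.Agent.T9h20.TE
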