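import Pool.Agent.T9h20.TE.Asm2
import Pool.Agent.T9h6.TE.Exp
import Pool.Agent.T9h66.TE.Cross
import Pool.Agent.T9h22.TE.Hyb
import Pool.Agent.T9h77.TE.Blk
import Pool.Agent.T9h19.TE.Grid
import Pool.Agent.T9h65.TE.Path
import Pool.Agent.T9h48.TE.Win
import Pool.Agent.T9h81.TE.Split

/-!
# Arbitrary expressions: the bound
-/

set_option autoImplicit false

open MeasureTheory Set
open scoped ENNReal NNReal

namespace Pool.Agent.T9h20.TE

theorem sWin : SWin :=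
  Pool.Agent.T9h48.TE.win (Pool.Agent.T9h19.TE.sGrid Pool.Agent.T9h6.TE.sExp
    Pool.Agent.T9h66.TE.sCross (Pool.Agent.T9h77.TE.sBlk Pool.Agent.T9h22.TE.sHyb))
    Pool.Agent.T9h65.TE.sPath

theorem bnd : Bnd fun k q t A =>
    ((q : ℝ≥0∞) * t ^ 2 + 1) * (k + 1) + (3 * k + 2) * A * (q * t ^ 2) :=
  bnd1 sWin Pool.Agent.T9h81.TE.sSplit

end Pool.Agent.T9h20.TE

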