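import Pool.Agent.T9h20.TE.Spec2
import Pool.Agent.T9h81.TE.Split

/-!
# Decomposition of a window: a linear number of intervals
-/

set_option autoImplicit false

open MeasureTheory Set Filter Topology
open scoped ENNReal NNReal

namespace Pool.Agent.T9h20.TE

open Pool.Agent.T9h20.TA (mon sel isSel_sel mx)
open Pool.Agent.T9h81.TE (WW_eq WW_cont abs_mon)

section one

variable {t : ℕ}

theorem abs_WW (c a : Fin t → ℝ) (s0 s : Fin t) (y : ℝ) :
    |WW c a s0 s y| = |mon c a s y| / |mon c a s0 y| := by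
  unfold WW
  rw [abs_div]

/-- The ratio of two terms is monotone or antitone. -/
theorem abs_WW_mono (c a : Fin t → ℝ) (s0 s : Fin t) :
    Monotone (fun y => |WW c a s0 s y|) ∨ Antitone (fun y => |WW c a s0 s y|) := by
  have h : ∀ y, |WW c a s0 s y| = |c s / c s0| * Real.exp ((a s - a s0) * y) := by
    intro y
    rw [WW_eq, abs_mul, Real.abs_exp]
  simp only [h]
  rcases le_total 0 (a s - a s0) with h0 | h0
  · left
    intro y z hyz
    have h1 : (a s - a s0) * y ≤ (a s - a s0) * z := mul_le_mul_of_nonneg_left hyz h0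
    exact mul_le_mul_of_nonneg_left (Real.exp_le_exp.mpr h1) (abs_nonneg _)
  · right
    intro y z hyz
    have h1 : (a s - a s0) * z ≤ (a s - a s0) * y := mul_le_mul_of_nonpos_left hyz h0
    exact mul_le_mul_of_nonneg_left (Real.exp_le_exp.mpr h1) (abs_nonneg _)

/-- The points where the term `s` is dominant. -/
def DD (c a : Fin t → ℝ) (s : Fin t) : Set ℝ := {y | ∀ r, |mon c a r y| ≤ |mon c a s y|}

theorem isClosed_DD (c a : Fin t → ℝ) (s : Fin t) : IsClosed (DD c a s) := by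
  unfold DD
  simp only [Set.ofPred_forall]
  refine isClosed_iInter fun r => ?_
  have h : ∀ r, Continuous fun y => |mon c a r y| := fun r => by
    unfold mon
    fun_prop
  exact isClosed_le (h r) (h s)

theorem ne_of_mem {c a : Fin t → ℝ} (hz : ∃ s, c s ≠ 0) {s : Fin t} {y : ℝ}
    (h : y ∈ DD c a s) : c s ≠ 0 := by
  obtain ⟨s1, hs1⟩ := hz
  intro h0
  have h1 := h s1
  rw [abs_mon, abs_mon, h0, abs_zero, zero_mul] at h1
  have h2 : 0 < |c s1| * Real.exp (a s1 * y) := mul_pos (abs_pos.2 hs1) (Real.exp_pos _)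
  linarith

theorem mon_pos {c a : Fin t → ℝ} {s : Fin t} (h : c s ≠ 0) (y : ℝ) : 0 < |mon c a s y| := by
  rw [abs_mon]
  exact mul_pos (abs_pos.2 h) (Real.exp_pos _)

theorem mem_DD_iff {c a : Fin t → ℝ} {s : Fin t} (h : c s ≠ 0) (y : ℝ) :
    y ∈ DD c a s ↔ ∀ r, |WW c a s r y| ≤ 1 := by
  unfold DD
  refine forall_congr' fun r => ?_
  rw [abs_WW, div_le_one (mon_pos h y)]

theorem DD_conn {c a : Fin t → ℝ} (hz : ∃ s, c s ≠ 0) {s : Fin t} {x y z : ℝ}
    (hx : x ∈ DD c a s) (hzz : z ∈ DD c a s) (hxy : x ≤ y) (hyz : y ≤ z) : y ∈ DD c a s := by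
  have hs := ne_of_mem hz hx
  rw [mem_DD_iff hs] at hx hzz ⊢
  intro r
  rcases abs_WW_mono c a s r with h | h
  · exact (h hyz).trans (hzz r)
  · exact (h hxy).trans (hx r)

/-- The normalised term. -/
noncomputable def gam [NeZero t] (c a : Fin t → ℝ) (s : Fin t) (y : ℝ) : ℝ :=
  |mon c a s y| / mx c a y

theorem mx_eq [NeZero t] {c a : Fin t → ℝ} {s0 : Fin t} {y : ℝ} (h : y ∈ DD c a s0) :
    mx c a y = |mon c a s0 y| :=
  le_antisymm (h _) ((isSel_sel c a y).1 s0)

theorem gam_eq [NeZero t] {c a : Fin t → ℝ} {s0 : Fin t} {y : ℝ} (h : y ∈ DD c a s0)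
    (s : Fin t) : gam c a s y = |WW c a s0 s y| := by
  unfold gam
  rw [mx_eq h, abs_WW]

theorem gam_le [NeZero t] {c a : Fin t → ℝ} (hz : ∃ s, c s ≠ 0) (s s1 : Fin t)
    (h1 : c s1 ≠ 0) (y : ℝ) : gam c a s y ≤ |WW c a s1 s y| := by
  rw [gam_eq (isSel_sel c a y).1, abs_WW, abs_WW]
  exact div_le_div_of_nonneg_left (abs_nonneg _) (mon_pos h1 y) ((isSel_sel c a y).1 s1)

theorem gam_nonneg [NeZero t] (c a : Fin t → ℝ) (s : Fin t) (y : ℝ) : 0 ≤ gam c a s y :=
  div_nonneg (abs_nonneg _) (abs_nonneg _)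

theorem gam_le_one [NeZero t] {c a : Fin t → ℝ} (hz : ∃ s, c s ≠ 0) (s : Fin t) (y : ℝ) :
    gam c a s y ≤ 1 := by
  have h := (isSel_sel c a y).1
  rw [gam_eq h]
  exact (mem_DD_iff (ne_of_mem hz h) y).mp h s

theorem gam_conc [NeZero t] {c a : Fin t → ℝ} (hz : ∃ s, c s ≠ 0) (s : Fin t) (x y z : ℝ)
    (hxy : x ≤ y) (hyz : y ≤ z) : min (gam c a s x) (gam c a s z) ≤ gam c a s y := by
  have h := (isSel_sel c a y).1
  have hne : c (sel c a y) ≠ 0 := ne_of_mem hz h
  have e : gam c a s y = |WW c a (sel c a y) s y| := gam_eq h s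
  rw [e]
  rcases abs_WW_mono c a (sel c a y) s with h1 | h1
  · exact (min_le_left _ _).trans ((gam_le hz s _ hne x).trans (h1 hxy))
  · exact (min_le_right _ _).trans ((gam_le hz s _ hne z).trans (h1 hyz))

theorem abs_sub_WW (c a : Fin t → ℝ) (s0 s : Fin t) (x y : ℝ) :
    |WW c a s0 s y - WW c a s0 s x| = |(|WW c a s0 s y| - |WW c a s0 s x|)| := by
  rw [WW_eq, WW_eq, abs_mul, abs_mul, Real.abs_exp, Real.abs_exp, ← mul_sub, ← mul_sub,
    abs_mul, abs_mul, abs_abs]

/-- On an interval without break points. -/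
theorem dom_interval [NeZero t] {c a : Fin t → ℝ} (hz : ∃ s, c s ≠ 0) {M x b m : ℝ}
    (hx : -M ≤ x) (hb : b ≤ M) (hm : m ∈ Ioo x b)
    (hno : ∀ s, ∀ y ∈ Ioo x b, y ≠ sInf (DD c a s ∩ Icc (-M) M) ∧
      y ≠ sSup (DD c a s ∩ Icc (-M) M)) :
    x ∈ DD c a (sel c a m) ∧ b ∈ DD c a (sel c a m) := by
  have hmD : m ∈ DD c a (sel c a m) := (isSel_sel c a m).1
  have hmI : m ∈ Icc (-M) M := ⟨hx.trans hm.1.le, hm.2.le.trans hb⟩
  have hcomp : IsCompact (DD c a (sel c a m) ∩ Icc (-M) M) :=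
    isCompact_Icc.inter_left (isClosed_DD c a _)
  have hne : (DD c a (sel c a m) ∩ Icc (-M) M).Nonempty := ⟨m, hmD, hmI⟩
  have h1 := hcomp.sInf_mem hne
  have h2 := hcomp.sSup_mem hne
  have h3 : sInf (DD c a (sel c a m) ∩ Icc (-M) M) ≤ m :=
    csInf_le hcomp.bddBelow ⟨hmD, hmI⟩
  have h4 : m ≤ sSup (DD c a (sel c a m) ∩ Icc (-M) M) :=
    le_csSup hcomp.bddAbove ⟨hmD, hmI⟩
  constructor
  · refine DD_conn hz h1.1 hmD ?_ hm.1.le
    by_contra hcon
    push Not at hcon
    exact (hno _ _ ⟨hcon, lt_of_le_of_lt h3 hm.2⟩).1 rfl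
  · refine DD_conn hz hmD h2.1 hm.2.le ?_
    by_contra hcon
    push Not at hcon
    exact (hno _ _ ⟨lt_of_lt_of_le hm.1 h4, hcon⟩).2 rfl

end one

/-- (H2) -/
theorem sSplit2 (hV : SVar) : SSplit2 := by
  classical
  intro q t _ c a hc M hM
  set Z : Finset ℝ := (Finset.univ : Finset (Bool × Fin q × Fin t)).image
    (fun p => if p.1 then sInf (DD (c p.2.1) (a p.2.1) p.2.2 ∩ Icc (-M) M)
      else sSup (DD (c p.2.1) (a p.2.1) p.2.2 ∩ Icc (-M) M)) with hZ
  set X : Finset ℝ := insert (-M) (Z.filter fun z => z ∈ Ioo (-M) M) with hX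
  have hXM : ∀ x ∈ X, -M ≤ x ∧ x < M := by
    intro x hx
    rw [hX, Finset.mem_insert] at hx
    rcases hx with rfl | hx
    · exact ⟨le_rfl, by linarith⟩
    · have := (Finset.mem_filter.1 hx).2
      exact ⟨this.1.le, this.2⟩
  set nx : ℝ → ℝ := fun x =>
    if h : (X.filter fun z => x < z).Nonempty then (X.filter fun z => x < z).min' h else M with hnx
  have hnxX : ∀ x ∈ X, nx x = M ∨ nx x ∈ X := by
    intro x _
    by_cases h : (X.filter fun z => x < z).Nonempty
    · right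
      have e : nx x = (X.filter fun z => x < z).min' h := by rw [hnx]; simp only; rw [dif_pos h]
      rw [e]
      exact (Finset.mem_filter.1 (Finset.min'_mem _ h)).1
    · left
      rw [hnx]; simp only; rw [dif_neg h]
  have hlt : ∀ x ∈ X, x < nx x := by
    intro x hx
    by_cases h : (X.filter fun z => x < z).Nonempty
    · have e : nx x = (X.filter fun z => x < z).min' h := by rw [hnx]; simp only; rw [dif_pos h]
      rw [e]
      exact (Finset.mem_filter.1 (Finset.min'_mem _ h)).2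
    · have e : nx x = M := by rw [hnx]; simp only; rw [dif_neg h]
      rw [e]
      exact (hXM x hx).2
  have hle : ∀ x ∈ X, ∀ z ∈ X, x < z → nx x ≤ z := by
    intro x _ z hz hxz
    have hmem : z ∈ X.filter fun z => x < z := Finset.mem_filter.2 ⟨hz, hxz⟩
    have h : (X.filter fun z => x < z).Nonempty := ⟨z, hmem⟩
    have e : nx x = (X.filter fun z => x < z).min' h := by rw [hnx]; simp only; rw [dif_pos h]
    rw [e]
    exact Finset.min'_le _ _ hmem
  have hnM : ∀ x ∈ X, nx x ≤ M := by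
    intro x hx
    rcases hnxX x hx with h | h
    · exact h.le
    · exact (hXM _ h).2.le
  have hno : ∀ x ∈ X, ∀ y ∈ Ioo x (nx x), y ∉ X := by
    intro x hx y hy hyX
    have := hle x hx y hyX hy.1
    linarith [hy.2]
  have hno3 : ∀ x ∈ X, ∀ y ∈ Ioo x (nx x), y ∉ Z := by
    intro x hx y hy hyZ
    apply hno x hx y hy
    rw [hX, Finset.mem_insert]
    right
    exact Finset.mem_filter.2 ⟨hyZ, lt_of_le_of_lt (hXM x hx).1 hy.1,
      lt_of_lt_of_le hy.2 (hnM x hx)⟩
  have hno2 : ∀ x ∈ X, ∀ j, ∀ s, ∀ y ∈ Ioo x (nx x),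
      y ≠ sInf (DD (c j) (a j) s ∩ Icc (-M) M) ∧
      y ≠ sSup (DD (c j) (a j) s ∩ Icc (-M) M) := by
    intro x hx j s y hy
    constructor
    · intro hcon
      apply hno3 x hx y hy
      rw [hZ, Finset.mem_image]
      exact ⟨(true, j, s), Finset.mem_univ _, by simp [hcon]⟩
    · intro hcon
      apply hno3 x hx y hy
      rw [hZ, Finset.mem_image]
      exact ⟨(false, j, s), Finset.mem_univ _, by simp [hcon]⟩
  have hmid : ∀ x ∈ X, (x + nx x) / 2 ∈ Ioo x (nx x) := by
    intro x hx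
    have := hlt x hx
    constructor <;> linarith
  have hdom : ∀ x ∈ X, ∀ j, x ∈ DD (c j) (a j) (sel (c j) (a j) ((x + nx x) / 2)) ∧
      nx x ∈ DD (c j) (a j) (sel (c j) (a j) ((x + nx x) / 2)) := fun x hx j =>
    dom_interval (hc j) (hXM x hx).1 (hnM x hx) (hmid x hx) (hno2 x hx j)
  refine ⟨X, nx, fun x j => sel (c j) (a j) ((x + nx x) / 2), ?_, hlt, ?_, ?_, ?_⟩
  · have h1 : X.card ≤ (Z.filter fun z => z ∈ Ioo (-M) M).card + 1 := by
      rw [hX]; exact Finset.card_insert_le _ _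
    have h2 : (Z.filter fun z => z ∈ Ioo (-M) M).card ≤ Z.card := Finset.card_filter_le _ _
    have h3 : Z.card ≤ 2 * q * t := by
      rw [hZ]
      refine Finset.card_image_le.trans (le_of_eq ?_)
      rw [Finset.card_univ, Fintype.card_prod, Fintype.card_prod, Fintype.card_fin,
        Fintype.card_fin, Fintype.card_bool]
      ring
    omega
  · intro x hx j
    exact ne_of_mem (hc j) (hdom x hx j).1
  · intro y hy
    by_cases hyX : y ∈ X
    · exact Or.inl hyX
    right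
    have hMX : -M ∈ X := by rw [hX]; exact Finset.mem_insert_self _ _
    have hne : (X.filter fun z => z < y).Nonempty := ⟨-M, Finset.mem_filter.2 ⟨hMX, hy.1⟩⟩
    set x := (X.filter fun z => z < y).max' hne with hx
    have hxm := Finset.mem_filter.1 (Finset.max'_mem _ hne)
    rw [← hx] at hxm
    refine ⟨x, hxm.1, hxm.2, ?_⟩
    rcases hnxX x hxm.1 with h | h
    · rw [h]; exact hy.2
    · by_contra hcon
      push Not at hcon
      have h1 : nx x ≠ y := fun h2 => hyX (h2 ▸ h)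
      have h2 : nx x < y := lt_of_le_of_ne hcon h1
      have h3 : nx x ≤ x := Finset.le_max' _ _ (Finset.mem_filter.2 ⟨h, h2⟩)
      linarith [hlt x hxm.1]
  · intro j s
    have hdis : ∀ x ∈ X, ∀ x' ∈ X, x ≠ x' → Disjoint (Ioo x (nx x)) (Ioo x' (nx x')) := by
      intro x hx x' hx' hne
      rw [Set.disjoint_left]
      intro y hy hy'
      rcases lt_or_gt_of_ne hne with h | h
      · have := hle x hx x' hx' h
        linarith [hy.2, hy'.1]
      · have := hle x' hx' x hx h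
        linarith [hy'.2, hy.1]
    have h1 := hV (gam (c j) (a j) s) (gam_nonneg _ _ s) (gam_le_one (hc j) s)
      (gam_conc (hc j) s) X nx hlt hdis
    have h2 : ∀ x ∈ X, |WW (c j) (a j) (sel (c j) (a j) ((x + nx x) / 2)) s (nx x) -
        WW (c j) (a j) (sel (c j) (a j) ((x + nx x) / 2)) s x| =
        |gam (c j) (a j) s (nx x) - gam (c j) (a j) s x| := by
      intro x hx
      rw [abs_sub_WW, gam_eq (hdom x hx j).1, gam_eq (hdom x hx j).2]
    calc ∑ x ∈ X, ‖WW (c j) (a j) (sel (c j) (a j) ((x + nx x) / 2)) s (nx x) -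
          WW (c j) (a j) (sel (c j) (a j) ((x + nx x) / 2)) s x‖ₑ
        = ∑ x ∈ X, ENNReal.ofReal |gam (c j) (a j) s (nx x) - gam (c j) (a j) s x| := by
          refine Finset.sum_congr rfl fun x hx => ?_
          rw [← h2 x hx, ← Real.enorm_abs, Real.enorm_eq_ofReal (abs_nonneg _)]
      _ = ENNReal.ofReal (∑ x ∈ X, |gam (c j) (a j) s (nx x) - gam (c j) (a j) s x|) :=
          (ENNReal.ofReal_sum_of_nonneg fun x _ => abs_nonneg _).symm
      _ ≤ ENNReal.ofReal 2 := ENNReal.ofReal_le_ofReal h1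
      _ = 2 := by simp

end Pool.Agent.T9h20.TE
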