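import Pool.Agent.T9h20.TE.Fin1
import Pool.Agent.T9h20.TE.Asm5
import Pool.Agent.T9h20.TE.Split2
import Pool.Agent.T9h65.TE.Var

/-!
# Arbitrary expressions: the linear bound
-/

set_option autoImplicit false

open MeasureTheory Set
open scoped ENNReal NNReal

namespace Pool.Agent.T9h20.TE

theorem bnd' : Bnd fun k q t A =>
    (2 * (q : ℝ≥0∞) * t + 1) * (k + 1) + (3 * k + 2) * A * (2 * q * t) :=
  bnd2 sWin (sSplit2 Pool.Agent.T9h65.TE.sVar)

end Pool.Agent.T9h20.TE
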