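import Pool.Agent.T9h80.TA.Coord
import Pool.Agent.T9h48.TA.Meas

/-!
# The smoothed real tau-conjecture for arbitrary expressions: definitions and pieces

`F(y) = ∑ i, b_i exp (d_i y) ∏ j, (∑ s, v_js c_js exp (a_js y)) ^ α_ij`, with deterministic real
numbers `b, d, c, a` and independent random variables `v_js` with `E |v| ≤ A` whose laws `ν` satisfy
`ν (B - h) ≤ ν B + |h|` (densities of variation at most 2).
Idea: on an interval where the dominating terms `s0 j` do not change, write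
`F(y) = ∑ i, b'_i exp (d'_i y) ∏ j, r_j(y) ^ α_ij`, `r_j(y) = v_(j,s0) + (small, slowly moving)`.
For fixed `r` there are at most `k - 1` sign changes (Descartes); moving `r` costs little.
-/

set_option autoImplicit false

open MeasureTheory Set Filter Topology
open scoped ENNReal NNReal

namespace Pool.Agent.T9h20.TE

open Pool.Agent.T9h20.TA (mon fn PP upd kap)

open Classical in
/-- The number of changes of the truth value of `p 0, ..., p L`. -/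
noncomputable def chg (p : ℕ → Prop) (L : ℕ) : ℕ :=
  ((Finset.range L).filter fun l => ¬(p l ↔ p (l + 1))).card

/-- The law moves little under shifts. -/
def Sh (ν : Measure ℝ) : Prop := ∀ (h : ℝ) (A : Set ℝ), MeasurableSet A →
  ν ((fun z => z + h) ⁻¹' A) ≤ ν A + ‖h‖ₑ

/-- The normalised factors. -/
noncomputable def rho {q t : ℕ} (g v : Fin q → Fin t → ℝ) (j : Fin q) : ℝ :=
  ∑ s, v j s * g j s

/-- The expression. -/
noncomputable def FF {k q t : ℕ} (b d : Fin k → ℝ) (al : Fin k → Fin q → ℕ)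
    (c a v : Fin q → Fin t → ℝ) (y : ℝ) : ℝ :=
  ∑ i, b i * Real.exp (d i * y) * ∏ j, fn (c j) (a j) (v j) y ^ al i j

/-- The ratio of two terms. -/
noncomputable def WW {t : ℕ} (c a : Fin t → ℝ) (s0 s : Fin t) (y : ℝ) : ℝ :=
  mon c a s y / mon c a s0 y

/-- Grid points. -/
noncomputable def gp (p r : ℝ) (n l : ℕ) : ℝ := p + (r - p) * ((l : ℝ) / (n : ℝ))

open Classical in
/-- The number of zeros in an open interval (zero if the expression vanishes identically). -/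
noncomputable def NN {k q t : ℕ} (b d : Fin k → ℝ) (al : Fin k → Fin q → ℕ)
    (c a : Fin q → Fin t → ℝ) (p r : ℝ) (v : Fin q → Fin t → ℝ) : ℝ≥0∞ :=
  if ∀ y, FF b d al c a v y = 0 then 0
  else (({y : ℝ | y ∈ Ioo p r ∧ FF b d al c a v y = 0}.encard : ℕ∞) : ℝ≥0∞)

/-! ## The pieces -/

/-- (A) Descartes for exponential sums, for `0 ≤ f` along a monotone sequence. Proof: if the
truth value changes `m` times, then there are points `x_0 < ... < x_m` where `f` is alternately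
`< 0` and `≥ 0`; multiply by `exp (- d_0 y)` and differentiate: the derivative is alternately
`> 0` and `< 0` at `m` points (mean value theorem), and it has `n - 1` terms. Induction on `n`.
(Or: add `δ exp (d_0 y)`, `δ > 0` small, and count zeros.) -/
def SExp : Prop := ∀ (n L : ℕ) (b d : Fin n → ℝ) (y : ℕ → ℝ), Monotone y →
  chg (fun l => 0 ≤ ∑ i, b i * Real.exp (d i * y l)) L ≤ n - 1

/-- (B) A sparse polynomial (at most `2 n - 1` real roots, unless it is zero) at two shifts of a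
random variable; `ν (Icc x x') ≤ x' - x` follows from `Sh ν` for half-lines. -/
def SCross : Prop := ∀ (n : ℕ) (A : Fin n → ℝ) (al : Fin n → ℕ) (ν : Measure ℝ)
  [IsProbabilityMeasure ν], Sh ν → ∀ x x' : ℝ,
    ν {z | ¬(0 ≤ ∑ i, A i * (z + x) ^ al i ↔ 0 ≤ ∑ i, A i * (z + x') ^ al i)} ≤
      2 * n * ‖x' - x‖ₑ

/-- (C) Hybrid argument: change the factors `j` one after the other, integrate out `v j (s0 j)`
first (`Pool.Agent.T9h80.TA.sCoord`). -/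
def SHyb : Prop := ∀ (q t : ℕ) (μ : Fin q → Fin t → Measure ℝ)
  [∀ j s, IsProbabilityMeasure (μ j s)] (A : ℝ≥0), (∀ j s, Sh (μ j s)) →
  (∀ j s, ∫⁻ x, ‖x‖ₑ ∂(μ j s) ≤ A) →
  ∀ (s0 : Fin q → Fin t) (g g' : Fin q → Fin t → ℝ), (∀ j, g j (s0 j) = 1) →
    (∀ j, g' j (s0 j) = 1) → ∀ D : Set (Fin q → ℝ), MeasurableSet D →
    (PP μ {v | rho g' v ∈ D} ≤ PP μ {v | rho g v ∈ D} + A * ∑ j, ∑ s, ‖g' j s - g j s‖ₑ) ∧
    ∀ C : ℝ≥0, (∀ (j : Fin q) (r : Fin q → ℝ) (x x' : ℝ),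
        (μ j (s0 j)) {z | ¬(Function.update r j (z + x) ∈ D ↔
          Function.update r j (z + x') ∈ D)} ≤ C * ‖x' - x‖ₑ) →
      PP μ {v | ¬(rho g v ∈ D ↔ rho g' v ∈ D)} ≤ C * A * ∑ j, ∑ s, ‖g' j s - g j s‖ₑ

/-- (D) Summation by parts, from (C). With `S_l r = #{l' ∈ [l, L) : r ∈ D l' xor r ∈ D (l'+1)} ≤ C1`
and `ρ_l = rho (g l) v`:
`P(ρ_l ∈ D_l xor ρ_(l+1) ∈ D_(l+1)) ≤ P(ρ_l ∈ D_l xor ρ_l ∈ D_(l+1)) +
  P(ρ_l ∈ D_(l+1) xor ρ_(l+1) ∈ D_(l+1))`, the first is `E (S_l - S_(l+1))(ρ_l)` and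
`E S_(l+1)(ρ_(l+1)) ≤ ...`, `E S_l(ρ) = ∑ m ∈ [1, C1], P(S_l(ρ) ≥ m)`: each of the `C1` sets costs
`A ∑ ‖g (l+1) - g l‖` by (C), first part. -/
def SBlk : Prop := ∀ (q t : ℕ) (μ : Fin q → Fin t → Measure ℝ)
  [∀ j s, IsProbabilityMeasure (μ j s)] (A : ℝ≥0), (∀ j s, Sh (μ j s)) →
  (∀ j s, ∫⁻ x, ‖x‖ₑ ∂(μ j s) ≤ A) →
  ∀ (s0 : Fin q → Fin t) (L : ℕ) (g : ℕ → Fin q → Fin t → ℝ), (∀ l j, g l j (s0 j) = 1) →
  ∀ (D : ℕ → Set (Fin q → ℝ)), (∀ l, MeasurableSet (D l)) → ∀ (C1 C2 : ℕ),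
    (∀ r, chg (fun l => r ∈ D l) L ≤ C1) →
    (∀ (l : ℕ) (j : Fin q) (r : Fin q → ℝ) (x x' : ℝ),
      (μ j (s0 j)) {z | ¬(Function.update r j (z + x) ∈ D l ↔
        Function.update r j (z + x') ∈ D l)} ≤ C2 * ‖x' - x‖ₑ) →
    ∑ l ∈ Finset.range L, PP μ {v | ¬(rho (g l) v ∈ D l ↔ rho (g (l + 1)) v ∈ D (l + 1))} ≤
      C1 + (C1 + C2) * A * ∑ l ∈ Finset.range L, ∑ j, ∑ s, ‖g (l + 1) j s - g l j s‖ₑ

/-- (E) Sign changes along a monotone grid: from (A), (B), (D), with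
`g l j s = WW (c j) (a j) (s0 j) s (y l)` (monotone or antitone in `l`, so the sum telescopes),
`D l = {r | 0 ≤ ∑ i, b'_i exp (d'_i y_l) ∏ j, r_j ^ α_ij}`,
`b'_i = b_i ∏ j, c_j(s0 j) ^ α_ij`, `d'_i = d_i + ∑ j, α_ij a_j(s0 j)`. -/
def SGrid : Prop := ∀ (k q t : ℕ) (b d : Fin k → ℝ) (al : Fin k → Fin q → ℕ)
  (c a : Fin q → Fin t → ℝ) (μ : Fin q → Fin t → Measure ℝ)
  [∀ j s, IsProbabilityMeasure (μ j s)] (A : ℝ≥0), (∀ j s, Sh (μ j s)) →
  (∀ j s, ∫⁻ x, ‖x‖ₑ ∂(μ j s) ≤ A) →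
  ∀ (s0 : Fin q → Fin t), (∀ j, c j (s0 j) ≠ 0) → ∀ (L : ℕ) (y : ℕ → ℝ), Monotone y →
    ∑ l ∈ Finset.range L, PP μ {v | ¬(0 ≤ FF b d al c a v (y l) ↔
        0 ≤ FF b d al c a v (y (l + 1)))} ≤
      ((k - 1 : ℕ) : ℝ≥0∞) + (((k - 1 : ℕ) : ℝ≥0∞) + 2 * k) * A *
        ∑ j, ∑ s, ‖WW (c j) (a j) (s0 j) s (y L) - WW (c j) (a j) (s0 j) s (y 0)‖ₑ

/-- (F) Every isolated zero gives two sign changes of `f - ε` and `f + ε` together, on fine
grids. Proof: around each zero `z` choose `z - η < z < z + η` (disjoint intervals inside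
`Ioo p r`, `f ≠ 0` at both ends), `ε < |f (z ± η)|`; on each of the `2 |Z|` intervals `f - ε` or
`f + ε` has strictly different signs at the two ends, so a fine grid sees a change inside. -/
def SPath : Prop := ∀ (f : ℝ → ℝ) (p r : ℝ), p < r → Continuous f → ∀ Z : Finset ℝ,
  (∀ y ∈ Z, y ∈ Ioo p r ∧ f y = 0) → (∀ y ∈ Z, ∀ᶠ x in 𝓝[≠] y, f x ≠ 0) →
    ∀ᶠ ε in 𝓝[>] (0 : ℝ), ∀ᶠ n in (atTop : Filter ℕ), 2 * Z.card ≤
      chg (fun l => 0 ≤ f (gp p r n l) - ε) n + chg (fun l => 0 ≤ f (gp p r n l) + ε) n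

/-- (G) The number of zeros in an interval: from (E) for `FF ± ε` (one more term, `d = 0`,
`α = 0`: `Fin.cons`/`Fin.snoc`), (F), Fatou (`lintegral_liminf_le`) for `n → ∞` and then
`ε = 1 / (m + 1) → 0`. If `FF` is not identically zero its zeros are isolated (analyticity). -/
def SWin : Prop := ∀ (k q t : ℕ) (b d : Fin k → ℝ) (al : Fin k → Fin q → ℕ)
  (c a : Fin q → Fin t → ℝ) (μ : Fin q → Fin t → Measure ℝ)
  [∀ j s, IsProbabilityMeasure (μ j s)] (A : ℝ≥0), (∀ j s, Sh (μ j s)) →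
  (∀ j s, ∫⁻ x, ‖x‖ₑ ∂(μ j s) ≤ A) →
  ∀ (s0 : Fin q → Fin t), (∀ j, c j (s0 j) ≠ 0) → ∀ (p r : ℝ), p < r →
    ∫⁻ v, NN b d al c a p r v ∂(PP μ) ≤
      (k : ℝ≥0∞) + (3 * k + 2) * A *
        ∑ j, ∑ s, ‖WW (c j) (a j) (s0 j) s r - WW (c j) (a j) (s0 j) s p‖ₑ

/-- (H) Decomposition of a window into intervals without a change of the dominating terms.
`X`: `-M` and the at most `q t^2` points of `(-M, M)` where two terms of the same factor with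
different exponents (and nonzero coefficients) have the same absolute value; `nx x`: the next
point of `X` or `M`; `s0 x j`: a dominating term at the midpoint. On the open interval
`(x, nx x)` the derivative of `WW s` is `± hh s`. -/
def SSplit : Prop := ∀ (q t : ℕ) [NeZero t] (c a : Fin q → Fin t → ℝ),
  (∀ j, ∃ s, c j s ≠ 0) → ∀ M : ℝ, 0 < M →
  ∃ (X : Finset ℝ) (nx : ℝ → ℝ) (s0 : ℝ → Fin q → Fin t),
    X.card ≤ q * t ^ 2 + 1 ∧ (∀ x ∈ X, x < nx x) ∧ (∀ x ∈ X, ∀ j, c j (s0 x j) ≠ 0) ∧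
    (∀ y ∈ Ioo (-M) M, y ∈ X ∨ ∃ x ∈ X, y ∈ Ioo x (nx x)) ∧
    (∀ x ∈ X, ∀ x' ∈ X, x ≠ x' → Disjoint (Ioo x (nx x)) (Ioo x' (nx x'))) ∧
    ∀ x ∈ X, ∀ j, ∑ s, ‖WW (c j) (a j) (s0 x j) s (nx x) - WW (c j) (a j) (s0 x j) s x‖ₑ ≤
      ∫⁻ y in Ioo x (nx x), kap (c j) (a j) y

end Pool.Agent.T9h20.TE
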