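import Pool.Agent.T9h20.TE.Spec

/-!
# Arbitrary expressions: a bound which is linear in the number of monomials
-/

set_option autoImplicit false

open MeasureTheory Set Filter Topology
open scoped ENNReal NNReal

namespace Pool.Agent.T9h20.TE

/-- (V) The total variation of a quasi-concave function with values in `[0, 1]`. Proof: with
`f y = sup of γ on (-∞, y]` (monotone) and `g y = sup of γ on [y, ∞)` (antitone) one has
`γ = min f g`, so `|γ (nx x) - γ x| ≤ (f (nx x) - f x) + (g x - g (nx x))`; for a monotone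
function with values in `[0, 1]` the sum over disjoint intervals is at most 1 (induction over
`X`, remove the largest element: the other intervals end before it). -/
def SVar : Prop := ∀ (γ : ℝ → ℝ), (∀ y, 0 ≤ γ y) → (∀ y, γ y ≤ 1) →
  (∀ x y z, x ≤ y → y ≤ z → min (γ x) (γ z) ≤ γ y) →
  ∀ (X : Finset ℝ) (nx : ℝ → ℝ), (∀ x ∈ X, x < nx x) →
    (∀ x ∈ X, ∀ x' ∈ X, x ≠ x' → Disjoint (Ioo x (nx x)) (Ioo x' (nx x'))) →
    ∑ x ∈ X, |γ (nx x) - γ x| ≤ 2

/-- (H2) Decomposition of a window with at most `2 q t + 1` intervals, from (V). For `c j s ≠ 0`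
let `D j s` be the set of all `y ∈ [-M, M]` where the term `s` of the factor `j` is dominant
(`∀ r, |mon r y| ≤ |mon s y|`); it is compact and order connected (a ratio of two terms is
monotone or antitone). `X`: `-M`, and all points of `(-M, M)` of the form `sInf (D j s)` or
`sSup (D j s)`, `D j s` nonempty. On an interval `(x, nx x)` without points of `X` a dominant
term of the midpoint is dominant in `[x, nx x]`, so there `|WW s0 s y| = γ s y` with
`γ s y = |mon s y| / max_r |mon r y|` (quasi-concave, as a minimum over `r` of monotone or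
antitone functions), and `WW s0 s` does not change its sign. -/
def SSplit2 : Prop := ∀ (q t : ℕ) [NeZero t] (c a : Fin q → Fin t → ℝ),
  (∀ j, ∃ s, c j s ≠ 0) → ∀ M : ℝ, 0 < M →
  ∃ (X : Finset ℝ) (nx : ℝ → ℝ) (s0 : ℝ → Fin q → Fin t),
    X.card ≤ 2 * q * t + 1 ∧ (∀ x ∈ X, x < nx x) ∧ (∀ x ∈ X, ∀ j, c j (s0 x j) ≠ 0) ∧
    (∀ y ∈ Ioo (-M) M, y ∈ X ∨ ∃ x ∈ X, y ∈ Ioo x (nx x)) ∧
    ∀ j s, ∑ x ∈ X, ‖WW (c j) (a j) (s0 x j) s (nx x) - WW (c j) (a j) (s0 x j) s x‖ₑ ≤ 2

end Pool.Agent.T9h20.TE
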